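import Pool.Agent.H66.GX4.Prd
import Pool.Agent.H36.OX.Main

/-!
# Matrix groups over the monoid algebras of monoids with a generic representation
-/

set_option autoImplicit false

namespace Pool.Agent.H66.GX4

open Pool.Agent.H66.NCL Pool.Agent.H36.OX Pool.Agent.H36.GX

universe u

/-- the coefficient map -/
private noncomputable def coN (A : Type u) [Ring A] (Q : Type u) [Monoid Q] (J : Type u)
    [Fintype J] [DecidableEq J] : Matrix J J (MonoidAlgebra ℤ Q) →+* Matrix J J (MonoidAlgebra A Q) :=
  (MonoidAlgebra.mapRingHom Q (Int.castRingHom A)).mapMatrix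

private theorem coN_coeff (A : Type u) [Ring A] (Q : Type u) [Monoid Q] (J : Type u)
    [Fintype J] [DecidableEq J] (m : Matrix J J (MonoidAlgebra ℤ Q)) (a b : J) (q : Q) :
    (coN A Q J m a b).coeff q = (((m a b).coeff q : ℤ) : A) := by
  unfold coN
  rw [RingHom.mapMatrix_apply, Matrix.map_apply, MonoidAlgebra.coeff_mapRingHom]
  rfl

/-- the scalar matrices -/
private noncomputable def scN (A : Type u) [Ring A] (Q : Type u) [Monoid Q] (J : Type u)
    [Fintype J] [DecidableEq J] : A →+* Matrix J J (MonoidAlgebra A Q) :=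
  (Matrix.scalar J).comp MonoidAlgebra.singleOneRingHom

private theorem scN_mul (A : Type u) [Ring A] (Q : Type u) [Monoid Q] (J : Type u)
    [Fintype J] [DecidableEq J] (c : A) (m : Matrix J J (MonoidAlgebra A Q)) (a b : J) (q : Q) :
    ((scN A Q J c * m) a b).coeff q = c * (m a b).coeff q := by
  unfold scN
  rw [RingHom.comp_apply, Matrix.scalar_apply, Matrix.diagonal_mul]
  exact MonoidAlgebra.coeff_single_one_mul _ _ _

private theorem mul_scN (A : Type u) [Ring A] (Q : Type u) [Monoid Q] (J : Type u)
    [Fintype J] [DecidableEq J] (c : A) (m : Matrix J J (MonoidAlgebra A Q)) (a b : J) (q : Q) :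
    ((m * scN A Q J c) a b).coeff q = (m a b).coeff q * c := by
  unfold scN
  rw [RingHom.comp_apply, Matrix.scalar_apply, Matrix.mul_diagonal]
  exact MonoidAlgebra.coeff_mul_single_one _ _ _

private theorem scN_comm (A : Type u) [Ring A] (Q : Type u) [Monoid Q] (J : Type u)
    [Fintype J] [DecidableEq J] (c : A) (m : Matrix J J (MonoidAlgebra ℤ Q)) :
    Commute (scN A Q J c) (coN A Q J m) := by
  refine Matrix.ext fun a b => ?_
  apply MonoidAlgebra.coeff_injective
  refine Finsupp.ext fun q => ?_
  rw [scN_mul, mul_scN, coN_coeff]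
  exact ((((m a b).coeff q)).cast_commute c).symm

/-- **Matrix groups over `A[S]`, for `S` with a generic representation.** -/
theorem Rep.P {A : Type u} [Ring A] (hA : OreTower A) {S : Type u} [Monoid S] (h : Rep S) :
    P.{u, u} (MonoidAlgebra A S) := by
  classical
  obtain ⟨Q, _, hQ, D, _, _, a, ha⟩ := h
  let ρA : S →* Matrix D D (MonoidAlgebra A Q) := ((coN A Q D : _ →+* _) : _ →* _).comp a
  let Ψ : MonoidAlgebra A S →+* Matrix D D (MonoidAlgebra A Q) :=
    MonoidAlgebra.liftNCRingHom (scN A Q D) ρA fun c w => scN_comm A _ D c (a w)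
  have hinj : Function.Injective Ψ := by
    rw [injective_iff_map_eq_zero]
    intro f hf
    by_contra hne
    have hsupp : f.coeff.support.Nonempty := by
      rw [Finsupp.support_nonempty_iff]
      intro h0
      exact hne (MonoidAlgebra.coeff_eq_zero.mp h0)
    obtain ⟨w, hw⟩ := hsupp
    obtain ⟨c, h1, h2⟩ := ha (f.coeff.support.erase w) w (Finset.notMem_erase _ _)
    let χ : Matrix D D (MonoidAlgebra A Q) →+ A :=
      { toFun := fun m => c.sum fun p r => (r : A) * (m p.1 p.2.1).coeff p.2.2
        map_zero' := by simp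
        map_add' := fun g g' => by
          rw [← Finsupp.sum_add]
          refine Finsupp.sum_congr fun p _ => ?_
          rw [Matrix.add_apply, MonoidAlgebra.coeff_add, Finsupp.add_apply, mul_add] }
    have hΨ1 : ∀ (s : S) (b : A), χ (Ψ (MonoidAlgebra.single s b)) =
        b * ((cev (a s) c : ℤ) : A) := by
      intro s b
      have h3 : Ψ (MonoidAlgebra.single s b) = scN A Q D b * coN A Q D (a s) :=
        MonoidAlgebra.liftNCRingHom_single _ _ _ _ _
      rw [h3, cev_apply]
      show (c.sum fun p r => (r : A) *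
        ((scN A Q D b * coN A Q D (a s) : Matrix D D (MonoidAlgebra A Q)) p.1 p.2.1).coeff
          p.2.2) = _
      rw [Finsupp.sum, Finsupp.sum, Int.cast_sum, Finset.mul_sum]
      refine Finset.sum_congr rfl fun p _ => ?_
      rw [scN_mul, coN_coeff, Int.cast_mul, ← mul_assoc, ← mul_assoc, (c p).cast_commute b]
    have hΨ : χ (Ψ f) = f.coeff w := by
      have h3 : f = ∑ g ∈ f.coeff.support, MonoidAlgebra.single g (f.coeff g) :=
        (MonoidAlgebra.sum_coeff_single f).symm
      have h4 : χ (Ψ f) = ∑ g ∈ f.coeff.support, χ (Ψ (MonoidAlgebra.single g (f.coeff g))) := by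
        conv_lhs => rw [h3]
        rw [map_sum, map_sum]
      rw [h4, Finset.sum_eq_single w]
      · rw [hΨ1, h1, Int.cast_one, mul_one]
      · intro w' hw' hne'
        rw [hΨ1, h2 w' (Finset.mem_erase.2 ⟨hne', hw'⟩), Int.cast_zero, mul_zero]
      · intro hh
        exact absurd hw hh
    rw [hf, map_zero] at hΨ
    exact (Finsupp.mem_support_iff.mp hw) hΨ.symm
  exact P.of_injective Ψ hinj (P.matrix (hA.solv hQ).P D)

end Pool.Agent.H66.GX4
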