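import Pool.Agent.H66.GX4.Wrd
import Pool.Agent.H66.GX4.PRep
import Pool.Agent.H36.GX.Cls

/-!
# Graph products of groups with a generic representation
-/

set_option autoImplicit false

namespace Pool.Agent.H66.GX4

open Pool.Agent.H66.NCL Pool.Agent.H36.OX Pool.Agent.H36.GX

universe u

section

variable {X T Q : Type u} [Group X] [Group Q] (i : X →* Q) (x : T → Q)

/-- words in the group `Q` -/
private def th : Pm X T →* Q := Monoid.Coprod.lift i (FreeMonoid.lift x)

private theorem th_nil (y : X) : th i x (wv ([] : List (X × T)) y) = i y := by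
  rw [th, wv, Monoid.Coprod.lift_apply_inl]

private theorem th_cons (p : X × T) (L : List (X × T)) (y : X) :
    th i x (wv (p :: L) y) = i p.1 * x p.2 * th i x (wv L y) := by
  have h1 : th i x (Monoid.Coprod.inl p.1) = i p.1 := by
    rw [th, Monoid.Coprod.lift_apply_inl]
  have h2 : th i x (Monoid.Coprod.inr (FreeMonoid.of p.2)) = x p.2 := by
    rw [th, Monoid.Coprod.lift_apply_inr, FreeMonoid.lift_eval_of]
  rw [wv, map_mul, map_mul, mul_assoc, h1, h2]

private theorem th_pos {Pos : Q → Prop} (hpos : IsPos2 i x Pos) (L : List (X × T)) (y : X) :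
    Pos (th i x (wv L y)) := by
  induction L with
  | nil =>
    rw [th_nil]
    exact hpos.base y
  | cons p L ih =>
    rw [th_cons]
    exact hpos.mul _ _ _ ih

private theorem th_word {Pos : Q → Prop} (hpos : IsPos2 i x Pos) (L L' : List (X × T)) (y y' : X)
    (h : th i x (wv L y) = th i x (wv L' y')) : L = L' ∧ y = y' := by
  induction L generalizing L' with
  | nil =>
    cases L' with
    | nil =>
      rw [th_nil, th_nil] at h
      exact ⟨rfl, hpos.injN h⟩
    | cons p' L' =>
      rw [th_nil, th_cons] at h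
      exact absurd h.symm (hpos.sep _ _ _ _ (th_pos i x hpos L' y'))
  | cons p L ih =>
    cases L' with
    | nil =>
      rw [th_nil, th_cons] at h
      exact absurd h (hpos.sep _ _ _ _ (th_pos i x hpos L y))
    | cons p' L' =>
      rw [th_cons, th_cons] at h
      obtain ⟨h1, h2, h3⟩ := hpos.inj _ _ _ _ _ _ (th_pos i x hpos L y) (th_pos i x hpos L' y') h
      obtain ⟨h4, h5⟩ := ih L' h3
      exact ⟨by rw [Prod.ext h1 h2, h4], h5⟩

private theorem th_injective {Pos : Q → Prop} (hpos : IsPos2 i x Pos) :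
    Function.Injective (th i x) := by
  intro p p' h
  obtain ⟨L, y, rfl⟩ := exists_wv p
  obtain ⟨L', y', rfl⟩ := exists_wv p'
  obtain ⟨h1, h2⟩ := th_word i x hpos L L' y y' h
  rw [h1, h2]

end

/-- lifting a representation along an injective ring homomorphism -/
private theorem exists_lift_range {Γ I : Type u} [Monoid Γ] [Fintype I] [DecidableEq I]
    {R R' : Type u} [Ring R] [Ring R'] (j : R' →+* R) (hj : Function.Injective j)
    (ρ : Γ →* Matrix I I R) (h : ∀ g a b, ρ g a b ∈ j.range) :
    ∃ ρ' : Γ →* Matrix I I R', ∀ g a b, j (ρ' g a b) = ρ g a b := by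
  choose r hr using h
  refine ⟨{ toFun := fun g => Matrix.of (r g), map_one' := ?_, map_mul' := ?_ }, hr⟩
  · refine Matrix.ext fun a b => hj ?_
    rw [Matrix.of_apply, hr, map_one, Matrix.one_apply, Matrix.one_apply]
    split_ifs
    · rw [map_one]
    · rw [map_zero]
  · intro g g'
    refine Matrix.ext fun a b => hj ?_
    rw [Matrix.of_apply, hr, map_mul, Matrix.mul_apply, Matrix.mul_apply, map_sum]
    refine Finset.sum_congr rfl fun c _ => ?_
    rw [map_mul, Matrix.of_apply, Matrix.of_apply, hr, hr]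

/-- **Graph products of a group with a generic representation.** -/
theorem P_gp_rep {A : Type u} [Ring A] (hA : OreTower A) {V : Type u} [Finite V]
    (E : SimpleGraph V) (X : Type u) [Group X] (h : Rep X) :
    P.{u, u} (MonoidAlgebra A (GraphProduct E fun _ : V => X)) := by
  classical
  obtain ⟨Q, _, i, x, Pos, hpos⟩ :=
    exists_wrePos X (Option (V × Option (V × (X ⧸ (⊤ : Subgroup X)))))
  have hpos2 := IsPos2.of hpos
  have hpos' : IsPos (i.comp (⊤ : Subgroup X).subtype) (fun t => x (some t)) Pos := by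
    refine ⟨hpos.one, fun n t q hq => hpos.mul _ _ _ hq, ?_⟩
    intro n t q n' t' q' hq hq' he
    obtain ⟨h1, h2, h3⟩ := hpos.inj _ _ _ _ _ _ hq hq' he
    exact ⟨Subtype.ext h1, Option.some.inj h2, h3⟩
  obtain ⟨I, _, _, ρ, hρ1, hρ2⟩ := exists_rho_range E X ⊤ Q _ _ Pos hpos'
    (Pm X (V × Option (V × (X ⧸ (⊤ : Subgroup X))))) (th i fun t => x (some t))
    (fun k => ⟨Monoid.Coprod.inl k.1, by rw [th, Monoid.Coprod.lift_apply_inl]; rfl⟩)
    (fun t => ⟨Monoid.Coprod.inr (FreeMonoid.of t), by
      rw [th, Monoid.Coprod.lift_apply_inr, FreeMonoid.lift_eval_of]⟩)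
  have hth := th_injective i (fun t => x (some t)) hpos2
  obtain ⟨ρ', hρ'⟩ := exists_lift_range (MonoidAlgebra.mapDomainRingHom ℤ (th i fun t => x (some t)))
    (fun f g hfg => MonoidAlgebra.mapDomain_injective hth hfg) ρ hρ1
  refine P_gpR E X (Pm X (V × Option (V × (X ⧸ (⊤ : Subgroup X)))))
    (fun k => ((h.pm _).pow k).P hA) I ρ' fun L hL => ?_
  obtain ⟨a, b, w, hw⟩ := hρ2 L hL
  refine ⟨a, b, w, fun ω => ?_⟩
  rw [← hw ω, ← hρ']
  exact (Finsupp.mapDomain_apply hth _ _).symm

/-- the group rings of iterated graph products of groups with generic representations -/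
theorem good_rep {A : Type u} [Ring A] (hA : OreTower A) : Good A (fun G _ => Rep G) := by
  intro G _ hG
  obtain ⟨V, _, E, U, _, hU, ⟨e⟩⟩ := hG.flat
  obtain ⟨f, hf⟩ := GraphProduct.exists_const E U
  exact P_submonoidR e.toMonoidHom e.injective (P_submonoidR f hf
    (P_gp_rep hA E (∀ v, U v) (Rep.pi U hU)))

end Pool.Agent.H66.GX4
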