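import Mathlib

/-!
# Products of the matrices `1 + s E_t`, `E_t = (t, 1)ᵀ (1, -t)`
-/

set_option autoImplicit false

namespace Pool.Agent.H66.GX4

universe u

/-- the variable `t` -/
noncomputable def fX {T : Type u} (t : T) : MonoidAlgebra ℤ (FreeMonoid T) :=
  MonoidAlgebra.single (FreeMonoid.of t) 1

/-- the matrix `(t, 1)ᵀ (1, -t)` -/
noncomputable def fE {T : Type u} (t : T) :
    Matrix (Fin 2) (Fin 2) (MonoidAlgebra ℤ (FreeMonoid T)) :=
  !![fX t, -(fX t * fX t); 1, -fX t]

theorem fE_sq {T : Type u} (t : T) : fE t * fE t = 0 := by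
  refine Matrix.ext fun i j => ?_
  fin_cases i <;> fin_cases j <;> simp [fE, Matrix.mul_apply, Fin.sum_univ_two] <;> noncomm_ring

/-- the last column of the product of the matrices `1 + s E_t` -/
noncomputable def pq {T : Type u} : List (T × ℤ) →
    MonoidAlgebra ℤ (FreeMonoid T) × MonoidAlgebra ℤ (FreeMonoid T)
  | [] => (0, 1)
  | l :: ω => ((pq ω).1 + l.2 • (fX l.1 * ((pq ω).1 - fX l.1 * (pq ω).2)),
      (pq ω).2 + l.2 • ((pq ω).1 - fX l.1 * (pq ω).2))

/-- the product of the matrices `1 + s E_t` -/
noncomputable def fP {T : Type u} (ω : List (T × ℤ)) :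
    Matrix (Fin 2) (Fin 2) (MonoidAlgebra ℤ (FreeMonoid T)) :=
  (ω.map fun l => 1 + l.2 • fE l.1).prod

theorem fP_cons {T : Type u} (l : T × ℤ) (ω : List (T × ℤ)) :
    fP (l :: ω) = (1 + l.2 • fE l.1) * fP ω := rfl

theorem pq_entries {T : Type u} (ω : List (T × ℤ)) :
    fP ω 0 1 = (pq ω).1 ∧ fP ω 1 1 = (pq ω).2 := by
  induction ω with
  | nil => simp [pq, fP]
  | cons l ω ih =>
    obtain ⟨h1, h2⟩ := ih
    rw [fP_cons]
    constructor
    · rw [Matrix.mul_apply, Fin.sum_univ_two, h1, h2, pq]
      simp [fE, Matrix.add_apply, Matrix.smul_apply, Matrix.one_apply]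
      noncomm_ring
    · rw [Matrix.mul_apply, Fin.sum_univ_two, h1, h2, pq]
      simp [fE, Matrix.add_apply, Matrix.smul_apply, Matrix.one_apply]
      noncomm_ring

theorem fX_cons {T : Type u} (t : T) (x : MonoidAlgebra ℤ (FreeMonoid T)) (m : List T) :
    (fX t * x).coeff (FreeMonoid.ofList (t :: m)) = x.coeff (FreeMonoid.ofList m) := by
  rw [FreeMonoid.ofList_cons, fX, MonoidAlgebra.coeff_single_mul_mul, one_mul]

theorem fX_ne {T : Type u} {t a : T} (h : a ≠ t) (x : MonoidAlgebra ℤ (FreeMonoid T))
    (m : List T) : (fX t * x).coeff (FreeMonoid.ofList (a :: m)) = 0 := by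
  rw [fX]
  refine MonoidAlgebra.coeff_single_mul_of_forall_mul_ne _ _ fun d hd => h ?_
  have h1 := congrArg FreeMonoid.toList hd
  rw [FreeMonoid.toList_of_mul, FreeMonoid.toList_ofList] at h1
  exact (List.cons.inj h1).1.symm

theorem fX_nil {T : Type u} (t : T) (x : MonoidAlgebra ℤ (FreeMonoid T)) :
    (fX t * x).coeff (FreeMonoid.ofList []) = 0 := by
  rw [fX]
  refine MonoidAlgebra.coeff_single_mul_of_forall_mul_ne _ _ fun d hd => ?_
  have h1 := congrArg FreeMonoid.toList hd
  rw [FreeMonoid.toList_of_mul, FreeMonoid.toList_ofList] at h1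
  exact List.cons_ne_nil _ _ h1

/-- coefficients of `x_t y` vanish in large degrees -/
theorem fX_deg {T : Type u} (t : T) (x : MonoidAlgebra ℤ (FreeMonoid T)) (k : ℕ)
    (h : ∀ m : List T, k < m.length → x.coeff (FreeMonoid.ofList m) = 0) (m : List T)
    (hm : k + 1 < m.length) : (fX t * x).coeff (FreeMonoid.ofList m) = 0 := by
  cases m with
  | nil => exact fX_nil _ _
  | cons a m =>
    by_cases ha : a = t
    · subst ha
      rw [fX_cons]
      refine h m ?_
      rw [List.length_cons] at hm
      omega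
    · exact fX_ne ha _ _

theorem pq_deg {T : Type u} (ω : List (T × ℤ)) :
    (∀ m : List T, ω.length + 1 < m.length → (pq ω).1.coeff (FreeMonoid.ofList m) = 0) ∧
      (∀ m : List T, ω.length < m.length → (pq ω).2.coeff (FreeMonoid.ofList m) = 0) := by
  induction ω with
  | nil =>
    refine ⟨fun m _ => rfl, fun m hm => ?_⟩
    rw [pq, MonoidAlgebra.one_def, MonoidAlgebra.coeff_single]
    refine Finsupp.single_eq_of_ne ?_
    intro h
    have h1 := congrArg FreeMonoid.toList h
    rw [FreeMonoid.toList_ofList, FreeMonoid.toList_one] at h1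
    rw [h1] at hm
    exact absurd hm (by simp)
  | cons l ω ih =>
    obtain ⟨h1, h2⟩ := ih
    have h3 : ∀ m : List T, ω.length + 1 < m.length →
        ((pq ω).1 - fX l.1 * (pq ω).2).coeff (FreeMonoid.ofList m) = 0 := by
      intro m hm
      rw [MonoidAlgebra.coeff_sub, Finsupp.sub_apply, h1 m hm,
        fX_deg l.1 _ ω.length h2 m hm, sub_zero]
    constructor
    · intro m hm
      rw [List.length_cons] at hm
      rw [pq, MonoidAlgebra.coeff_add, Finsupp.add_apply, MonoidAlgebra.coeff_smul,
        Finsupp.smul_apply, h1 m (by omega), fX_deg l.1 _ (ω.length + 1) h3 m (by omega),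
        smul_zero, add_zero]
    · intro m hm
      rw [List.length_cons] at hm
      rw [pq, MonoidAlgebra.coeff_add, Finsupp.add_apply, MonoidAlgebra.coeff_smul,
        Finsupp.smul_apply, h2 m (by omega), h3 m (by omega), smul_zero, add_zero]

/-- top coefficients of the first entry -/
theorem p_top {T : Type u} (l : T × ℤ) (ω : List (T × ℤ)) (m : List T)
    (hm : m.length = ω.length + 1) :
    (pq (l :: ω)).1.coeff (FreeMonoid.ofList (l.1 :: m)) =
      (pq (l :: ω)).2.coeff (FreeMonoid.ofList m) := by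
  obtain ⟨h1, h2⟩ := pq_deg ω
  rw [pq, MonoidAlgebra.coeff_add, Finsupp.add_apply, MonoidAlgebra.coeff_smul,
    Finsupp.smul_apply, fX_cons, h1 _ (by rw [List.length_cons]; omega), MonoidAlgebra.coeff_add,
    Finsupp.add_apply, MonoidAlgebra.coeff_smul, Finsupp.smul_apply, h2 m (by omega)]

theorem p_top_ne {T : Type u} (l : T × ℤ) (ω : List (T × ℤ)) (m : List T)
    (hm : m.length = ω.length + 1) {a : T} (ha : a ≠ l.1) :
    (pq (l :: ω)).1.coeff (FreeMonoid.ofList (a :: m)) = 0 := by
  obtain ⟨h1, h2⟩ := pq_deg ω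
  rw [pq, MonoidAlgebra.coeff_add, Finsupp.add_apply, MonoidAlgebra.coeff_smul,
    Finsupp.smul_apply, fX_ne ha, h1 _ (by rw [List.length_cons]; omega), smul_zero, add_zero]

/-- top coefficients of the second entry -/
theorem q_one {T : Type u} (l : T × ℤ) : (pq [l]).2.coeff (FreeMonoid.ofList [l.1]) = -l.2 := by
  have h := pq_deg ([] : List (T × ℤ))
  rw [pq, MonoidAlgebra.coeff_add, Finsupp.add_apply, MonoidAlgebra.coeff_smul,
    Finsupp.smul_apply, MonoidAlgebra.coeff_sub, Finsupp.sub_apply, fX_cons,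
    h.2 [l.1] (by simp)]
  have h1 : (pq ([] : List (T × ℤ))).1.coeff (FreeMonoid.ofList [l.1]) = 0 := rfl
  have h2 : (pq ([] : List (T × ℤ))).2.coeff (FreeMonoid.ofList []) = 1 := by
    rw [pq, MonoidAlgebra.one_def, MonoidAlgebra.coeff_single]
    exact Finsupp.single_eq_same
  rw [h1, h2]
  simp

theorem q_one_ne {T : Type u} (l : T × ℤ) {a : T} (ha : a ≠ l.1) :
    (pq [l]).2.coeff (FreeMonoid.ofList [a]) = 0 := by
  have h := pq_deg ([] : List (T × ℤ))
  rw [pq, MonoidAlgebra.coeff_add, Finsupp.add_apply, MonoidAlgebra.coeff_smul,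
    Finsupp.smul_apply, MonoidAlgebra.coeff_sub, Finsupp.sub_apply, fX_ne ha,
    h.2 [a] (by simp)]
  have h1 : (pq ([] : List (T × ℤ))).1.coeff (FreeMonoid.ofList [a]) = 0 := rfl
  rw [h1]
  simp

theorem q_top {T : Type u} (l l' : T × ℤ) (ω : List (T × ℤ)) (m : List T)
    (hm : m.length = ω.length + 2) :
    (pq (l :: l' :: ω)).2.coeff (FreeMonoid.ofList m) =
      l.2 * ((pq (l' :: ω)).1.coeff (FreeMonoid.ofList m) -
        (fX l.1 * (pq (l' :: ω)).2).coeff (FreeMonoid.ofList m)) := by
  obtain ⟨h1, h2⟩ := pq_deg (l' :: ω)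
  rw [pq, MonoidAlgebra.coeff_add, Finsupp.add_apply, MonoidAlgebra.coeff_smul,
    Finsupp.smul_apply, h2 m (by rw [List.length_cons]; omega), zero_add,
    MonoidAlgebra.coeff_sub, Finsupp.sub_apply, smul_eq_mul]

/-- the leading monomial of the second entry -/
def mq {T : Type u} : List (T × ℤ) → List T
  | [] => []
  | [l] => [l.1]
  | _ :: l' :: ω => l'.1 :: mq (l' :: ω)

theorem mq_length {T : Type u} (ω : List (T × ℤ)) : (mq ω).length = ω.length := by
  induction ω with
  | nil => rfl
  | cons l ω ih =>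
    cases ω with
    | nil => rfl
    | cons l' ω =>
      rw [mq, List.length_cons, ih]
      rfl

/-- the coefficient of the leading monomial is `1` or `-1` -/
theorem q_lead {T : Type u} (ω : List (T × ℤ)) (hω : ω.IsChain fun l l' => l.1 ≠ l'.1)
    (hs : ∀ l ∈ ω, l.2 = 1 ∨ l.2 = -1) :
    (pq ω).2.coeff (FreeMonoid.ofList (mq ω)) = 1 ∨
      (pq ω).2.coeff (FreeMonoid.ofList (mq ω)) = -1 := by
  induction ω with
  | nil =>
    left
    rw [pq, mq, MonoidAlgebra.one_def, MonoidAlgebra.coeff_single]
    exact Finsupp.single_eq_same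
  | cons l ω ih =>
    cases ω with
    | nil =>
      rw [mq, q_one]
      rcases hs l (by simp) with h | h
      · right
        rw [h]
      · left
        rw [h]
        norm_num
    | cons l' ω =>
      have hc : l.1 ≠ l'.1 := by
        rw [List.isChain_cons_cons] at hω
        exact hω.1
      have ih' := ih (List.isChain_cons_cons.1 hω).2 fun x hx => hs x (List.mem_cons_of_mem _ hx)
      have h1 : (pq (l :: l' :: ω)).2.coeff (FreeMonoid.ofList (mq (l :: l' :: ω))) =
          l.2 * (pq (l' :: ω)).2.coeff (FreeMonoid.ofList (mq (l' :: ω))) := by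
        rw [q_top l l' ω _ (mq_length _), mq, p_top l' ω _ (mq_length _), fX_ne hc.symm, sub_zero]
      rw [h1]
      rcases hs l (by simp) with h | h <;> rcases ih' with h' | h' <;> rw [h, h'] <;> norm_num

/-- a product with the same leading monomial -/
theorem q_uniq {T : Type u} (ω : List (T × ℤ)) (hω : ω.IsChain fun l l' => l.1 ≠ l'.1)
    (ω' : List (T × ℤ)) (hω' : ω'.IsChain fun l l' => l.1 ≠ l'.1) (hl : ω'.length = ω.length)
    (hh : ω.head?.map Prod.fst = ω'.head?.map Prod.fst)
    (hne : (pq ω').2.coeff (FreeMonoid.ofList (mq ω)) ≠ 0) :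
    ω.map Prod.fst = ω'.map Prod.fst := by
  induction ω generalizing ω' with
  | nil =>
    have h1 : ω' = [] := List.eq_nil_of_length_eq_zero hl
    rw [h1]
  | cons l ω ih =>
    cases ω' with
    | nil => simp at hl
    | cons k ω' =>
      have hlk : l.1 = k.1 := by simpa using hh
      cases ω with
      | nil =>
        have h1 : ω' = [] := by
          apply List.eq_nil_of_length_eq_zero
          simpa using hl
        rw [h1]
        simp [hlk]
      | cons l' ω =>
        cases ω' with
        | nil => simp at hl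
        | cons k' ω' =>
          have hl' : ω'.length = ω.length := by simpa using hl
          have hc : l.1 ≠ l'.1 := (List.isChain_cons_cons.1 hω).1
          have hc' := (List.isChain_cons_cons.1 hω').1
          rw [mq, q_top k k' ω' _ (by rw [List.length_cons, mq_length, List.length_cons, hl'])] at hne
          have h2 : l'.1 ≠ k.1 := by
            rw [← hlk]
            exact hc.symm
          rw [fX_ne h2, sub_zero] at hne
          have h3 : l'.1 = k'.1 := by
            by_contra h3
            rw [p_top_ne k' ω' _ (by rw [mq_length, List.length_cons, hl']) h3, mul_zero] at hne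
            exact hne rfl
          rw [h3, p_top k' ω' _ (by rw [mq_length, List.length_cons, hl'])] at hne
          have h4 := ih (List.isChain_cons_cons.1 hω).2 (k' :: ω') (List.isChain_cons_cons.1 hω').2
            (by rw [List.length_cons, List.length_cons, hl']) (by simp [h3])
            (fun h => hne (by rw [h, mul_zero]))
          rw [List.map_cons, h4, hlk]
          rfl

end Pool.Agent.H66.GX4
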