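import Pool.Agent.H66.GX4.Mono
import Pool.Agent.H66.GX4.Poly

/-!
# Matrices for free groups by groups in `SolvTF`
-/

set_option autoImplicit false

namespace Pool.Agent.H66.GX4

open Pool.Agent.H36.OX

universe u

private def sg (b : Bool) : ℤ := if b then 1 else -1

/-- the factors of a letter -/
private def fac {Y : Type u} (L : List (Y × Bool)) : List ((Y × Bool) × ℤ) :=
  L.flatMap fun p => [((p.1, !p.2), sg p.2), ((p.1, p.2), sg p.2)]

private theorem fac_cons {Y : Type u} (p : Y × Bool) (L : List (Y × Bool)) :
    fac (p :: L) = ((p.1, !p.2), sg p.2) :: ((p.1, p.2), sg p.2) :: fac L := rfl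

private theorem fac_length {Y : Type u} (L : List (Y × Bool)) : (fac L).length = 2 * L.length := by
  induction L with
  | nil => rfl
  | cons p L ih =>
    rw [fac_cons, List.length_cons, List.length_cons, ih, List.length_cons]
    ring

private theorem fac_sign {Y : Type u} (L : List (Y × Bool)) : ∀ l ∈ fac L, l.2 = 1 ∨ l.2 = -1 := by
  have h : ∀ b : Bool, sg b = 1 ∨ sg b = -1 := by
    intro b
    cases b <;> simp [sg]
  induction L with
  | nil =>
    intro l hl
    exact absurd hl (by simp [fac])
  | cons p L ih =>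
    intro l hl
    rw [fac_cons, List.mem_cons, List.mem_cons] at hl
    rcases hl with rfl | rfl | hl
    · exact h _
    · exact h _
    · exact ih l hl

private theorem fac_chain {Y : Type u} (L : List (Y × Bool)) (hL : FreeGroup.IsReduced L) :
    (fac L).IsChain fun l l' => l.1 ≠ l'.1 := by
  induction L with
  | nil => exact List.isChain_nil
  | cons p L ih =>
    have ih' := ih (List.IsChain.tail hL)
    have h1 : ((p.1, !p.2) : Y × Bool) ≠ (p.1, p.2) := by
      intro h
      have h2 := congrArg Prod.snd h
      revert h2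
      cases p.2 <;> simp
    cases L with
    | nil =>
      rw [fac_cons]
      exact List.isChain_cons_cons.2 ⟨h1, List.isChain_singleton _⟩
    | cons q L =>
      rw [fac_cons, fac_cons]
      refine List.isChain_cons_cons.2 ⟨h1, List.isChain_cons_cons.2 ⟨?_, ih'⟩⟩
      intro h
      have h' : (p.1, p.2) = (q.1, !q.2) := h
      have h2 := (List.isChain_cons_cons.1 hL).1 (Prod.mk.inj h').1
      have h3 : p.2 = !q.2 := (Prod.mk.inj h').2
      rw [h2] at h3
      revert h3
      cases q.2 <;> simp

private theorem fac_inj {Y : Type u} (L L' : List (Y × Bool))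
    (h : (fac L).map Prod.fst = (fac L').map Prod.fst) : L = L' := by
  induction L generalizing L' with
  | nil =>
    cases L' with
    | nil => rfl
    | cons q L' => exact absurd h (by simp [fac])
  | cons p L ih =>
    cases L' with
    | nil => exact absurd h (by simp [fac])
    | cons q L' =>
      rw [fac_cons, fac_cons, List.map_cons, List.map_cons, List.map_cons, List.map_cons] at h
      obtain ⟨-, h1⟩ := List.cons.inj h
      obtain ⟨h2, h3⟩ := List.cons.inj h1
      rw [ih L' h3]
      congr 1

/-- the leading monomial of the first entry -/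
private def lead {T : Type u} : List (T × ℤ) → List T
  | [] => []
  | l :: ω => l.1 :: mq (l :: ω)

/-- the unit `1 + E_t` -/
private noncomputable def uE {T : Type u} (t : T) :
    (Matrix (Fin 2) (Fin 2) (MonoidAlgebra ℤ (FreeMonoid T)))ˣ :=
  ⟨1 + fE t, 1 - fE t, by
    have h := fE_sq t
    rw [add_mul, mul_sub, mul_sub, h, one_mul, mul_one, one_mul]
    abel, by
    have h := fE_sq t
    rw [sub_mul, mul_add, mul_add, h, one_mul, mul_one, one_mul]
    abel⟩

/-- the matrix of a generator -/
private noncomputable def uY {Y : Type u} (y : Y) :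
    (Matrix (Fin 2) (Fin 2) (MonoidAlgebra ℤ (FreeMonoid (Y × Bool))))ˣ :=
  uE (y, false) * uE (y, true)

private noncomputable def rho (Y : Type u) :
    FreeGroup Y →* (Matrix (Fin 2) (Fin 2) (MonoidAlgebra ℤ (FreeMonoid (Y × Bool))))ˣ :=
  FreeGroup.lift uY

private theorem rho_mk {Y : Type u} (L : List (Y × Bool)) :
    (rho Y (FreeGroup.mk L)).val = fP (fac L) := by
  rw [rho, FreeGroup.lift_mk]
  induction L with
  | nil => rfl
  | cons p L ih =>
    rw [List.map_cons, List.prod_cons, Units.val_mul, ih, fac_cons, fP_cons, fP_cons, ← mul_assoc]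
    congr 1
    obtain ⟨y, b⟩ := p
    cases b
    · show (uY y)⁻¹.val = (1 + (-1 : ℤ) • fE (y, true)) * (1 + (-1 : ℤ) • fE (y, false))
      rw [uY, mul_inv_rev, Units.val_mul, neg_one_smul, neg_one_smul, ← sub_eq_add_neg,
        ← sub_eq_add_neg]
      rfl
    · show (uY y).val = (1 + (1 : ℤ) • fE (y, false)) * (1 + (1 : ℤ) • fE (y, true))
      rw [uY, Units.val_mul, one_smul, one_smul]
      rfl

private theorem rho_word {Y : Type u} [DecidableEq Y] (w : FreeGroup Y) :
    (rho Y w).val = fP (fac w.toWord) := by
  rw [← rho_mk, FreeGroup.mk_toWord]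

section

variable {T Q N : Type u} [Group Q] [Group N] (z : T → Q) (i : N →* Q)

private noncomputable def psi (z : T → Q) : MonoidAlgebra ℤ (FreeMonoid T) →+* MonoidAlgebra ℤ Q :=
  MonoidAlgebra.mapDomainRingHom ℤ (FreeMonoid.lift z)

private theorem psi_single (w : FreeMonoid T) (r : ℤ) :
    psi z (MonoidAlgebra.single w r) = MonoidAlgebra.single ((w.toList.map z).prod) r := by
  rw [psi, ← FreeMonoid.lift_apply]
  simp

private theorem psi_coeff (hinj : ∀ (L L' : List T) (n n' : N),
      (L.map z).prod * i n = (L'.map z).prod * i n' → L = L' ∧ n = n')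
    (x : MonoidAlgebra ℤ (FreeMonoid T)) (n' n : N) (m : List T) :
    (n = n' → (psi z x * MonoidAlgebra.single (i n') 1).coeff ((m.map z).prod * i n) =
      x.coeff (FreeMonoid.ofList m)) ∧
    (n ≠ n' → (psi z x * MonoidAlgebra.single (i n') 1).coeff ((m.map z).prod * i n) = 0) := by
  classical
  induction x using MonoidAlgebra.induction_linear with
  | zero => simp
  | add f g hf hg =>
    constructor
    · intro h
      rw [map_add, add_mul, MonoidAlgebra.coeff_add, Finsupp.add_apply, hf.1 h, hg.1 h,
        MonoidAlgebra.coeff_add, Finsupp.add_apply]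
    · intro h
      rw [map_add, add_mul, MonoidAlgebra.coeff_add, Finsupp.add_apply, hf.2 h, hg.2 h, add_zero]
  | single w r =>
    rw [psi_single, MonoidAlgebra.single_mul_single, mul_one, MonoidAlgebra.coeff_single,
      MonoidAlgebra.coeff_single]
    constructor
    · intro h
      subst h
      by_cases hw : m = w.toList
      · rw [hw, FreeMonoid.ofList_toList, Finsupp.single_eq_same, Finsupp.single_eq_same]
      · rw [Finsupp.single_eq_of_ne, Finsupp.single_eq_of_ne]
        · intro h'
          apply hw
          rw [← h', FreeMonoid.toList_ofList]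
        · intro h'
          exact hw (hinj _ _ _ _ h').1
    · intro h
      rw [Finsupp.single_eq_of_ne]
      intro h'
      exact h (hinj _ _ _ _ h').2

/-- scalar matrices -/
private noncomputable def sc : N →* Matrix (Fin 2) (Fin 2) (MonoidAlgebra ℤ Q) :=
  ((Matrix.scalar (Fin 2)).toMonoidHom.comp (MonoidAlgebra.of ℤ Q)).comp i

private theorem sc_mul (n : N) (A : Matrix (Fin 2) (Fin 2) (MonoidAlgebra ℤ Q)) (a b : Fin 2) :
    (sc i n * A) a b = MonoidAlgebra.single (i n) 1 * A a b := by
  show (Matrix.scalar (Fin 2) (MonoidAlgebra.of ℤ Q (i n)) * A) a b = _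
  rw [Matrix.scalar_apply, Matrix.diagonal_mul]
  rfl

private theorem mul_sc (n : N) (A : Matrix (Fin 2) (Fin 2) (MonoidAlgebra ℤ Q)) (a b : Fin 2) :
    (A * sc i n) a b = A a b * MonoidAlgebra.single (i n) 1 := by
  show (A * Matrix.scalar (Fin 2) (MonoidAlgebra.of ℤ Q (i n))) a b = _
  rw [Matrix.scalar_apply, Matrix.mul_diagonal]
  rfl

private theorem psi_fX (t : T) : psi z (fX t) = MonoidAlgebra.single (z t) 1 := by
  rw [fX, psi_single, FreeMonoid.toList_of, List.map_singleton, List.prod_singleton]

private theorem sc_fE (n : N) (t t' : T) (h : i n * z t = z t' * i n) :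
    SemiconjBy (sc i n) ((psi z).mapMatrix (fE t)) ((psi z).mapMatrix (fE t')) := by
  have h1 : MonoidAlgebra.single (i n) (1 : ℤ) * MonoidAlgebra.single (z t) 1 =
      MonoidAlgebra.single (z t') 1 * MonoidAlgebra.single (i n) 1 := by
    rw [MonoidAlgebra.single_mul_single, MonoidAlgebra.single_mul_single, h]
  have h2 : MonoidAlgebra.single (i n) (1 : ℤ) *
      (MonoidAlgebra.single (z t) 1 * MonoidAlgebra.single (z t) 1) =
      MonoidAlgebra.single (z t') 1 * MonoidAlgebra.single (z t') 1 *
        MonoidAlgebra.single (i n) 1 := by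
    rw [← mul_assoc, h1, mul_assoc, h1, mul_assoc]
  refine Matrix.ext fun a b => ?_
  rw [sc_mul, mul_sc, RingHom.mapMatrix_apply, RingHom.mapMatrix_apply, Matrix.map_apply,
    Matrix.map_apply]
  fin_cases a <;> fin_cases b
  · show _ * psi z (fX t) = psi z (fX t') * _
    rw [psi_fX, psi_fX, h1]
  · show _ * psi z (-(fX t * fX t)) = psi z (-(fX t' * fX t')) * _
    rw [map_neg, map_neg, map_mul, map_mul, psi_fX, psi_fX, mul_neg, neg_mul, h2]
  · show _ * psi z 1 = psi z 1 * _
    rw [map_one, mul_one, one_mul]
  · show _ * psi z (-fX t) = psi z (-fX t') * _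
    rw [map_neg, map_neg, psi_fX, psi_fX, mul_neg, neg_mul, h1]

end

/-- **Matrices for `F(Y) ⋊ N`.** -/
theorem exists_repFree {N Y : Type u} [Group N] (hN : SolvTF N) (φ : N →* MulAut (FreeGroup Y))
    (hφ : ∀ n y, ∃ y', φ n (FreeGroup.of y) = FreeGroup.of y') :
    ∃ (Q : Type u) (_ : Group Q) (_ : TFSolv Q)
      (a : FreeGroup Y ⋊[φ] N →* Matrix (Fin 2) (Fin 2) (MonoidAlgebra ℤ Q))
      (ℓ : FreeGroup Y ⋊[φ] N → ℕ) (L : FreeGroup Y ⋊[φ] N → Fin 2 × Fin 2 × Q),
      (∀ g, (a g (L g).1 (L g).2.1).coeff (L g).2.2 = 1 ∨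
        (a g (L g).1 (L g).2.1).coeff (L g).2.2 = -1) ∧
      ∀ g h, h ≠ g → ℓ h ≤ ℓ g → (a h (L g).1 (L g).2.1).coeff (L g).2.2 = 0 := by
  classical
  choose act hact using hφ
  let instT : MulAction N (Y × Bool) :=
    { smul := fun n t => (act n t.1, t.2)
      one_smul := fun t => by
        refine Prod.ext ?_ rfl
        show act 1 t.1 = t.1
        apply FreeGroup.of_injective
        rw [← hact, map_one]
        rfl
      mul_smul := fun n n' t => by
        refine Prod.ext ?_ rfl
        show act (n * n') t.1 = act n (act n' t.1)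
        apply FreeGroup.of_injective
        rw [← hact, ← hact, ← hact, map_mul]
        rfl }
  obtain ⟨Q, _, hQ, i, z, hz, hinj⟩ := exists_mono (T := Y × Bool) hN
  have hsc : ∀ (n : N) (y : Y) (b : Bool), SemiconjBy (sc i n) ((psi z).mapMatrix (fE (y, b)))
      ((psi z).mapMatrix (fE (act n y, b))) := fun n y b => sc_fE z i n (y, b) _ (hz n (y, b))
  let f₁ : FreeGroup Y →* (Matrix (Fin 2) (Fin 2) (MonoidAlgebra ℤ Q))ˣ :=
    (Units.map ((psi z).mapMatrix (m := Fin 2)).toMonoidHom).comp (rho Y)
  let f₂ : N →* (Matrix (Fin 2) (Fin 2) (MonoidAlgebra ℤ Q))ˣ := (sc i).toHomUnits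
  have hf₁ : ∀ w, (f₁ w).val = (psi z).mapMatrix (rho Y w).val := fun w => rfl
  have hf₂ : ∀ n, (f₂ n).val = sc i n := fun n => rfl
  have hcomp : ∀ n, f₁.comp (φ n).toMonoidHom = (MulAut.conj (f₂ n)).toMonoidHom.comp f₁ := by
    intro n
    refine FreeGroup.ext_hom _ _ fun y => ?_
    show f₁ (φ n (FreeGroup.of y)) = f₂ n * f₁ (FreeGroup.of y) * (f₂ n)⁻¹
    rw [hact, eq_mul_inv_iff_mul_eq]
    apply Units.ext
    rw [Units.val_mul, Units.val_mul, hf₁, hf₁, hf₂]
    have h1 : ∀ y : Y, (rho Y (FreeGroup.of y)).val = (1 + fE (y, false)) * (1 + fE (y, true)) := by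
      intro y
      rw [rho, FreeGroup.lift_apply_of, uY, Units.val_mul]
      rfl
    rw [h1, h1, map_mul, map_mul, map_add, map_add, map_add, map_add, map_one]
    exact (((SemiconjBy.one_right _).add_right (hsc n y false)).mul_right
      ((SemiconjBy.one_right _).add_right (hsc n y true))).symm
  let a : FreeGroup Y ⋊[φ] N →* Matrix (Fin 2) (Fin 2) (MonoidAlgebra ℤ Q) :=
    (Units.coeHom _).comp (SemidirectProduct.lift f₁ f₂ hcomp)
  have ha : ∀ g : FreeGroup Y ⋊[φ] N,
      a g = (psi z).mapMatrix (fP (fac g.left.toWord)) * sc i g.right := by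
    intro g
    show (f₁ g.left * f₂ g.right).val = _
    rw [Units.val_mul, hf₁, hf₂, rho_word]
  have hac : ∀ (g : FreeGroup Y ⋊[φ] N) (r c : Fin 2) (m : List (Y × Bool)) (n : N),
      (n = g.right → (a g r c).coeff ((m.map z).prod * i n) =
        (fP (fac g.left.toWord) r c).coeff (FreeMonoid.ofList m)) ∧
      (n ≠ g.right → (a g r c).coeff ((m.map z).prod * i n) = 0) := by
    intro g r c m n
    rw [ha, mul_sc, RingHom.mapMatrix_apply, Matrix.map_apply]
    exact psi_coeff z i hinj _ g.right n m
  obtain ⟨Lf, hLf⟩ : ∃ Lf : FreeGroup Y ⋊[φ] N → Fin 2 × Fin 2 × Q, ∀ g,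
      (g.left.toWord = [] → Lf g = (1, 1, (([] : List (Y × Bool)).map z).prod * i g.right)) ∧
      (¬g.left.toWord = [] → Lf g = (0, 1, ((lead (fac g.left.toWord)).map z).prod * i g.right)) :=
    ⟨fun g => if g.left.toWord = [] then (1, 1, (([] : List (Y × Bool)).map z).prod * i g.right)
      else (0, 1, ((lead (fac g.left.toWord)).map z).prod * i g.right),
      fun g => ⟨fun h => if_pos h, fun h => if_neg h⟩⟩
  refine ⟨Q, inferInstance, hQ, a, fun g => g.left.toWord.length, Lf, ?_, ?_⟩
  · intro g
    by_cases hg : g.left.toWord = []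
    · rw [(hLf g).1 hg]
      left
      rw [(hac g 1 1 [] g.right).1 rfl, hg, (pq_entries _).2]
      show (1 : MonoidAlgebra ℤ (FreeMonoid (Y × Bool))).coeff 1 = 1
      exact MonoidAlgebra.coeff_one_one
    · rw [(hLf g).2 hg, (hac g 0 1 _ g.right).1 rfl, (pq_entries _).1]
      obtain ⟨p, L, hL⟩ := List.exists_cons_of_ne_nil hg
      have hc := fac_chain g.left.toWord FreeGroup.isReduced_toWord
      have hs := fac_sign g.left.toWord
      rw [hL] at hc hs ⊢
      rw [fac_cons] at hc hs ⊢
      rw [lead, p_top _ _ _ (mq_length _)]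
      exact q_lead _ hc hs
  · intro g h hne hle
    by_cases hg : g.left.toWord = []
    · rw [(hLf g).1 hg]
      have hh : h.left.toWord = [] := by
        apply List.eq_nil_of_length_eq_zero
        have h1 : h.left.toWord.length ≤ g.left.toWord.length := hle
        rw [hg, List.length_nil] at h1
        omega
      refine (hac h 1 1 [] g.right).2 fun h1 => hne ?_
      refine SemidirectProduct.ext ?_ h1.symm
      rw [FreeGroup.toWord_eq_nil_iff.1 hg, FreeGroup.toWord_eq_nil_iff.1 hh]
    · rw [(hLf g).2 hg]
      by_cases hn : g.right = h.right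
      · rw [(hac h 0 1 _ g.right).1 hn, (pq_entries _).1]
        obtain ⟨p, L, hL⟩ := List.exists_cons_of_ne_nil hg
        have hlen : (lead (fac g.left.toWord)).length = 2 * g.left.toWord.length + 1 := by
          rw [hL, fac_cons, lead, List.length_cons, mq_length, ← fac_cons, fac_length]
        have h1 : h.left.toWord.length ≤ g.left.toWord.length := hle
        rcases h1.lt_or_eq with h2 | h2
        · refine (pq_deg _).1 _ ?_
          rw [hlen, fac_length]
          omega
        · by_contra hne'
          apply hne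
          refine SemidirectProduct.ext ?_ hn.symm
          apply FreeGroup.toWord_injective
          symm
          apply fac_inj
          have hc := fac_chain g.left.toWord FreeGroup.isReduced_toWord
          have hc' := fac_chain h.left.toWord FreeGroup.isReduced_toWord
          have hh : h.left.toWord ≠ [] := by
            intro h3
            apply hg
            apply List.eq_nil_of_length_eq_zero
            rw [← h2, h3]
            rfl
          obtain ⟨p', L', hL'⟩ := List.exists_cons_of_ne_nil hh
          rw [hL] at hne' hc h2 ⊢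
          rw [hL'] at hne' hc' h2 ⊢
          have h4 : (fac (p' :: L')).length = (fac (p :: L)).length := by
            rw [fac_length, fac_length, h2]
          rw [fac_cons] at hc hne' h4
          rw [fac_cons] at hc' hne' h4
          rw [fac_cons, fac_cons p' L']
          have h5 : (fac L').length = (fac L).length := by simpa using h4
          have h6 : ((p.1, !p.2) : Y × Bool) = (p'.1, !p'.2) := by
            by_contra h6
            apply hne'
            rw [lead]
            refine p_top_ne _ _ _ ?_ h6
            rw [mq_length, List.length_cons, List.length_cons, List.length_cons, h5]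
          refine q_uniq _ hc _ hc' h4 ?_ ?_
          · simp only [List.head?_cons, Option.map_some]
            rw [h6]
          · intro h7
            apply hne'
            rw [lead]
            show (pq (((p'.1, !p'.2), sg p'.2) :: ((p'.1, p'.2), sg p'.2) :: fac L')).1.coeff
              (FreeMonoid.ofList ((p.1, !p.2) :: _)) = 0
            rw [h6]
            rw [show ((p'.1, !p'.2) : Y × Bool) = (((p'.1, !p'.2), sg p'.2) :
              (Y × Bool) × ℤ).1 from rfl] at *
            rw [p_top _ _ _ (by rw [mq_length, List.length_cons, List.length_cons, List.length_cons, h5])]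
            exact h7
      · exact (hac h 0 1 _ g.right).2 hn

end Pool.Agent.H66.GX4
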