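import Pool.Agent.H36.GX.Sol

/-!
# Monomials in variables permuted by a solvable group
-/

set_option autoImplicit false

namespace Pool.Agent.H66.GX4

open Pool.Agent.H36.OX Pool.Agent.H36.GX

universe u

private theorem sol_eq {N : Type u} [Group N] (hN : TFSolv N) :
    ∀ {M : Type u} [Group M] (_ : N ≃* M), TFSolv M := by
  induction hN with
  | triv N h =>
    intro M _ e
    refine TFSolv.triv M fun x => ?_
    apply e.symm.injective
    rw [map_one]
    exact h _
  | step N₀ N i z h hz hN0 _ =>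
    intro M _ e
    obtain ⟨σ, hσ⟩ := h
    refine TFSolv.step N₀ M (e.toMonoidHom.comp i) (e z) ⟨σ, ?_⟩ ?_ hN0
    · intro x
      show e z * e (i x) = e (i (σ x)) * e z
      rw [← map_mul, ← map_mul, hσ]
    · have : (fun p : N₀ × ℤ => (e.toMonoidHom.comp i) p.1 * e z ^ p.2) =
          e ∘ fun p : N₀ × ℤ => i p.1 * z ^ p.2 := by
        funext p
        show e (i p.1) * e z ^ p.2 = e (i p.1 * z ^ p.2)
        rw [map_mul, map_zpow]
      rw [this]
      exact e.bijective.comp hz
  | union N J K hdir htop _ ih =>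
    intro M _ e
    refine TFSolv.union M J (fun j => (K j).map e.toMonoidHom) ?_ ?_ ?_
    · intro a b
      obtain ⟨c, h1, h2⟩ := hdir a b
      exact ⟨c, Subgroup.map_mono h1, Subgroup.map_mono h2⟩
    · intro x
      obtain ⟨j, hj⟩ := htop (e.symm x)
      exact ⟨j, ⟨e.symm x, hj, e.apply_symm_apply x⟩⟩
    · intro j
      exact ih j ((K j).equivMapOfInjective e.toMonoidHom e.injective)

/-- the kernel of the restriction of `π` to the preimage of `K` -/
private def kerEquiv {E N : Type u} [Group E] [Group N] (π : E →* N) (K : Subgroup N) :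
    π.ker ≃* (π.subgroupComap K).ker where
  toFun x := ⟨⟨x.1, by
    show π x.1 ∈ K
    rw [MonoidHom.mem_ker.1 x.2]
    exact K.one_mem⟩, by
    rw [MonoidHom.mem_ker]
    exact Subtype.ext (MonoidHom.mem_ker.1 x.2)⟩
  invFun x := ⟨x.1.1, by
    have h := MonoidHom.mem_ker.1 x.2
    exact congrArg Subtype.val h⟩
  left_inv _ := rfl
  right_inv _ := rfl
  map_mul' _ _ := rfl

/-- extensions of groups in `SolvTF` by groups in `TFSolv` -/
theorem TFSolv.of_ker {N : Type u} [Group N] (hN : SolvTF N) :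
    ∀ {E : Type u} [Group E] (π : E →* N), TFSolv π.ker → TFSolv E := by
  induction hN with
  | triv N h =>
    intro E _ π hπ
    refine sol_eq hπ (MulEquiv.ofBijective π.ker.subtype ⟨Subtype.val_injective, fun x => ?_⟩)
    exact ⟨⟨x, h _⟩, rfl⟩
  | ext N K hn hc ht _ ih =>
    intro E _ π hπ
    have _ := hn
    refine TFSolv.ext (K.comap π) inferInstance ?_ ?_ (ih (π.subgroupComap K)
      (sol_eq hπ (kerEquiv π K)))
    · intro x y
      show π (x * y * x⁻¹ * y⁻¹) ∈ K
      rw [map_mul, map_mul, map_mul, map_inv, map_inv]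
      exact hc _ _
    · intro x n hx hxn
      refine ht (π x) n hx ?_
      rw [← map_pow]
      exact hxn
  | union N J K hdir htop _ ih =>
    intro E _ π hπ
    refine TFSolv.union E J (fun j => (K j).comap π) ?_ ?_ fun j =>
      ih j (π.subgroupComap (K j)) (sol_eq hπ (kerEquiv π (K j)))
    · intro a b
      obtain ⟨c, h1, h2⟩ := hdir a b
      exact ⟨c, Subgroup.comap_mono h1, Subgroup.comap_mono h2⟩
    · intro x
      exact htop (π x)

theorem solvTF_int : SolvTF (ULift.{u} (Multiplicative ℤ)) := by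
  refine SolvTF.ext _ ⊥ inferInstance (fun x y => ?_) (fun x n hn hx => ?_)
    (SolvTF.triv _ fun x => Subtype.ext (Subgroup.mem_bot.1 x.2))
  · rw [Subgroup.mem_bot, mul_comm x y, mul_inv_cancel_right, mul_inv_cancel]
  · rw [Subgroup.mem_bot] at hx ⊢
    have h1 : (n : ℤ) * x.down.toAdd = 0 := by
      have := congrArg (fun a => (ULift.down a).toAdd) hx
      simpa using this
    rcases mul_eq_zero.1 h1 with h2 | h2
    · exact absurd (by exact_mod_cast h2) hn
    · exact ULift.ext _ _ (Multiplicative.toAdd.injective h2)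

/-- functions of `j`, `t` by shifts and `N` -/
private structure FQ (T N : Type u) where
  /-- base -/
  f : ℤ → T → ℤ
  /-- exponent of the shift -/
  k : ℤ
  /-- group element -/
  g : N

variable {T N : Type u} [Group N] [MulAction N T]

private theorem FQ.ext' {T N : Type u} {a b : FQ T N} (h1 : ∀ j t, a.f j t = b.f j t)
    (h2 : a.k = b.k) (h3 : a.g = b.g) : a = b := by
  obtain ⟨f, k, g⟩ := a
  obtain ⟨f', k', g'⟩ := b
  obtain rfl : f = f' := funext fun j => funext fun t => h1 j t
  obtain rfl : k = k' := h2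
  obtain rfl : g = g' := h3
  rfl

private instance : Mul (FQ T N) :=
  ⟨fun a b => ⟨fun j t => a.f j t + b.f (j - a.k) (a.g⁻¹ • t), a.k + b.k, a.g * b.g⟩⟩
private instance : One (FQ T N) := ⟨⟨fun _ _ => 0, 0, 1⟩⟩
private instance : Inv (FQ T N) := ⟨fun a => ⟨fun j t => -a.f (j + a.k) (a.g • t), -a.k, a.g⁻¹⟩⟩

private theorem FQ.mul_f (a b : FQ T N) (j : ℤ) (t : T) :
    (a * b).f j t = a.f j t + b.f (j - a.k) (a.g⁻¹ • t) := rfl
private theorem FQ.mul_k (a b : FQ T N) : (a * b).k = a.k + b.k := rfl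
private theorem FQ.mul_g (a b : FQ T N) : (a * b).g = a.g * b.g := rfl
omit [MulAction N T] in
private theorem FQ.one_f (j : ℤ) (t : T) : (1 : FQ T N).f j t = 0 := rfl
omit [MulAction N T] in
private theorem FQ.one_k : (1 : FQ T N).k = 0 := rfl
omit [MulAction N T] in
private theorem FQ.one_g : (1 : FQ T N).g = 1 := rfl
private theorem FQ.inv_f (a : FQ T N) (j : ℤ) (t : T) :
    (a⁻¹).f j t = -a.f (j + a.k) (a.g • t) := rfl
private theorem FQ.inv_k (a : FQ T N) : (a⁻¹).k = -a.k := rfl
private theorem FQ.inv_g (a : FQ T N) : (a⁻¹).g = a.g⁻¹ := rfl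

private instance : Group (FQ T N) :=
  Group.ofLeftAxioms
    (by
      intro a b c
      apply FQ.ext'
      · intro j t
        simp only [FQ.mul_f, FQ.mul_k, FQ.mul_g]
        rw [add_assoc, mul_inv_rev, mul_smul, sub_sub]
      · simp only [FQ.mul_k]
        ring
      · simp only [FQ.mul_g, mul_assoc])
    (by
      intro a
      apply FQ.ext'
      · intro j t
        simp only [FQ.mul_f, FQ.one_f, FQ.one_k, FQ.one_g, zero_add, sub_zero, inv_one, one_smul]
      · simp only [FQ.mul_k, FQ.one_k, zero_add]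
      · simp only [FQ.mul_g, FQ.one_g, one_mul])
    (by
      intro a
      apply FQ.ext'
      · intro j t
        simp only [FQ.mul_f, FQ.inv_f, FQ.inv_k, FQ.inv_g, FQ.one_f, inv_inv]
        rw [sub_neg_eq_add, neg_add_cancel]
      · simp only [FQ.mul_k, FQ.inv_k, FQ.one_k, neg_add_cancel]
      · simp only [FQ.mul_g, FQ.inv_g, FQ.one_g, inv_mul_cancel])

private def FQ.toN : FQ T N →* N where
  toFun a := a.g
  map_one' := rfl
  map_mul' _ _ := rfl

private def FQ.toZ : (FQ.toN (T := T) (N := N)).ker →* ULift.{u} (Multiplicative ℤ) where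
  toFun a := ⟨Multiplicative.ofAdd a.1.k⟩
  map_one' := rfl
  map_mul' _ _ := rfl

private theorem FQ.solv (hN : SolvTF N) : TFSolv (FQ T N) := by
  refine TFSolv.of_ker hN FQ.toN (TFSolv.of_ker solvTF_int FQ.toZ ?_)
  have key : ∀ x : (FQ.toZ (T := T) (N := N)).ker, x.1.1.k = 0 ∧ x.1.1.g = 1 := by
    intro x
    refine ⟨?_, MonoidHom.mem_ker.1 x.1.2⟩
    have h := MonoidHom.mem_ker.1 x.2
    exact Multiplicative.ofAdd.injective (congrArg ULift.down h)
  refine TFSolv.comm _ ?_ ?_
  · intro x y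
    apply Subtype.ext
    apply Subtype.ext
    show x.1.1 * y.1.1 = y.1.1 * x.1.1
    obtain ⟨h1, h2⟩ := key x
    obtain ⟨h3, h4⟩ := key y
    apply FQ.ext'
    · intro j t
      rw [FQ.mul_f, FQ.mul_f, h1, h2, h3, h4, inv_one, one_smul, sub_zero, add_comm]
    · rw [FQ.mul_k, FQ.mul_k, h1, h3]
    · rw [FQ.mul_g, FQ.mul_g, h2, h4]
  · intro x n hn hx
    have h5 : ∀ (m : ℕ) (j : ℤ) (t : T), (x ^ m).1.1.f j t = m * x.1.1.f j t := by
      intro m
      induction m with
      | zero =>
        intro j t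
        rw [pow_zero]
        show (0 : ℤ) = _
        rw [Nat.cast_zero, zero_mul]
      | succ m ih =>
        intro j t
        obtain ⟨h1, h2⟩ := key (x ^ m)
        rw [pow_succ]
        show ((x ^ m).1.1 * x.1.1).f j t = _
        rw [FQ.mul_f, h1, h2, inv_one, one_smul, sub_zero, ih]
        push_cast
        ring
    apply Subtype.ext
    apply Subtype.ext
    obtain ⟨h1, h2⟩ := key x
    apply FQ.ext'
    · intro j t
      have h6 := h5 n j t
      rw [hx] at h6
      have h7 : (0 : ℤ) = n * x.1.1.f j t := h6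
      rcases mul_eq_zero.1 h7.symm with h8 | h8
      · exact absurd (by exact_mod_cast h8) hn
      · exact h8
    · exact h1
    · exact h2

open Classical in
private noncomputable def FQ.z (N : Type u) [Group N] (t : T) : FQ T N :=
  ⟨fun j t' => if j = 0 ∧ t' = t then 1 else 0, 1, 1⟩

private def FQ.i : N →* FQ T N where
  toFun n := ⟨fun _ _ => 0, 0, n⟩
  map_one' := rfl
  map_mul' a b := by
    apply FQ.ext'
    · intro j t
      rfl
    · rfl
    · rfl

omit [MulAction N T] in
private theorem FQ.z_ne (t t' : T) {j : ℤ} (hj : j ≠ 0) : (FQ.z N t).f j t' = 0 :=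
  if_neg fun h => hj h.1

omit [MulAction N T] in
private theorem FQ.z_eq (t : T) : (FQ.z N t).f 0 t = 1 := if_pos ⟨rfl, rfl⟩

omit [MulAction N T] in
private theorem FQ.z_ne' {t t' : T} (h : t' ≠ t) : (FQ.z N t).f 0 t' = 0 :=
  if_neg fun h' => h h'.2

private theorem FQ.word_neg (L : List T) (n : N) : ∀ (j : ℤ) (t : T), j < 0 →
    ((L.map (FQ.z N)).prod * FQ.i n).f j t = 0 := by
  induction L with
  | nil =>
    intro j t _
    rw [List.map_nil, List.prod_nil, one_mul]
    rfl
  | cons a L ih =>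
    intro j t hj
    rw [List.map_cons, List.prod_cons, mul_assoc, FQ.mul_f, FQ.z_ne _ _ hj.ne]
    show 0 + ((L.map (FQ.z N)).prod * FQ.i n).f (j - 1) _ = 0
    rw [ih _ _ (by omega), add_zero]

private theorem FQ.word_k (L : List T) (n : N) :
    ((L.map (FQ.z N)).prod * FQ.i n).k = (L.length : ℤ) := by
  induction L with
  | nil =>
    rw [List.map_nil, List.prod_nil, one_mul]
    rfl
  | cons a L ih =>
    rw [List.map_cons, List.prod_cons, mul_assoc, FQ.mul_k, ih, List.length_cons]
    show 1 + (L.length : ℤ) = _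
    push_cast
    ring

private theorem FQ.word_inj (L L' : List T) (n n' : N)
    (h : (L.map (FQ.z N)).prod * FQ.i n = (L'.map (FQ.z N)).prod * FQ.i n') : L = L' ∧ n = n' := by
  classical
  induction L generalizing L' with
  | nil =>
    have h1 := congrArg FQ.k h
    rw [FQ.word_k, FQ.word_k] at h1
    have h2 : L' = [] := by
      apply List.eq_nil_of_length_eq_zero
      have h3 : (L'.length : ℤ) = 0 := by
        rw [← h1]
        rfl
      exact_mod_cast h3
    subst h2
    refine ⟨rfl, ?_⟩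
    rw [List.map_nil, List.prod_nil, one_mul, one_mul] at h
    exact congrArg FQ.g h
  | cons a L ih =>
    cases L' with
    | nil =>
      exfalso
      have h1 := congrArg FQ.k h
      rw [FQ.word_k, FQ.word_k] at h1
      simp only [List.length_cons, List.length_nil] at h1
      omega
    | cons b L' =>
      rw [List.map_cons, List.prod_cons, List.map_cons, List.prod_cons, mul_assoc, mul_assoc] at h
      have h1 := congrArg (fun q => FQ.f q 0 a) h
      simp only [FQ.mul_f] at h1
      have h2 : ((L.map (FQ.z N)).prod * FQ.i n).f (0 - 1) ((1 : N)⁻¹ • a) = 0 :=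
        FQ.word_neg L n _ _ (by norm_num)
      have h3 : ((L'.map (FQ.z N)).prod * FQ.i n').f (0 - 1) ((1 : N)⁻¹ • a) = 0 :=
        FQ.word_neg L' n' _ _ (by norm_num)
      have h4 : (FQ.z N a).f 0 a + ((L.map (FQ.z N)).prod * FQ.i n).f (0 - 1) ((1 : N)⁻¹ • a) =
        (FQ.z N b).f 0 a + ((L'.map (FQ.z N)).prod * FQ.i n').f (0 - 1) ((1 : N)⁻¹ • a) := h1
      rw [h2, h3, add_zero, add_zero, FQ.z_eq] at h4
      have h5 : a = b := by
        by_contra h5
        rw [FQ.z_ne' h5] at h4
        exact one_ne_zero h4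
      subst h5
      obtain ⟨h6, h7⟩ := ih L' (mul_left_cancel h)
      exact ⟨by rw [h6], h7⟩

private theorem FQ.comm (n : N) (t : T) : FQ.i n * FQ.z N t = FQ.z N (n • t) * FQ.i n := by
  classical
  apply FQ.ext'
  · intro j t'
    rw [FQ.mul_f, FQ.mul_f]
    show 0 + (FQ.z N t).f (j - 0) (n⁻¹ • t') = (FQ.z N (n • t)).f j t' + 0
    rw [sub_zero, zero_add, add_zero]
    by_cases hj : j = 0
    · subst hj
      by_cases ht : t' = n • t
      · rw [ht, inv_smul_smul, FQ.z_eq, FQ.z_eq]
      · rw [FQ.z_ne' ht, FQ.z_ne']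
        intro h'
        exact ht (inv_smul_eq_iff.1 h')
    · rw [FQ.z_ne _ _ hj, FQ.z_ne _ _ hj]
  · rw [FQ.mul_k, FQ.mul_k]
    show (0 : ℤ) + 1 = 1 + 0
    norm_num
  · rw [FQ.mul_g, FQ.mul_g]
    show n * 1 = 1 * n
    rw [mul_one, one_mul]

/-- **Monomials in variables permuted by a group in `SolvTF`.** -/
theorem exists_mono (hN : SolvTF N) : ∃ (Q : Type u) (_ : Group Q) (_ : TFSolv Q) (i : N →* Q)
    (z : T → Q), (∀ n t, i n * z t = z (n • t) * i n) ∧
      ∀ (L L' : List T) (n n' : N), (L.map z).prod * i n = (L'.map z).prod * i n' →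
        L = L' ∧ n = n' :=
  ⟨FQ T N, inferInstance, FQ.solv hN, FQ.i, FQ.z N, FQ.comm, FQ.word_inj⟩

end Pool.Agent.H66.GX4
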