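import Pool.Agent.H66.GX4.Rep

/-!
# Products of monoids with a generic representation
-/

set_option autoImplicit false

namespace Pool.Agent.H66.GX4

open Pool.Agent.H36.OX Pool.Agent.H36.GX

universe u

section

variable {Q Q' : Type u} [Monoid Q] [Monoid Q']

/-- first factor -/
private noncomputable def inA (Q Q' : Type u) [Monoid Q] [Monoid Q'] :
    MonoidAlgebra ℤ Q →+* MonoidAlgebra ℤ (Q × Q') :=
  MonoidAlgebra.mapDomainRingHom ℤ (MonoidHom.inl Q Q')

/-- second factor -/
private noncomputable def inB (Q Q' : Type u) [Monoid Q] [Monoid Q'] :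
    MonoidAlgebra ℤ Q' →+* MonoidAlgebra ℤ (Q × Q') :=
  MonoidAlgebra.mapDomainRingHom ℤ (MonoidHom.inr Q Q')

private theorem inA_single (q : Q) (r : ℤ) :
    inA Q Q' (MonoidAlgebra.single q r) = MonoidAlgebra.single (q, 1) r := by
  simp [inA]

private theorem inB_single (q : Q') (r : ℤ) :
    inB Q Q' (MonoidAlgebra.single q r) = MonoidAlgebra.single (1, q) r := by
  simp [inB]

private theorem inAB_coeff (f : MonoidAlgebra ℤ Q) (g : MonoidAlgebra ℤ Q') (q : Q) (q' : Q') :
    (inA Q Q' f * inB Q Q' g).coeff (q, q') = f.coeff q * g.coeff q' := by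
  classical
  induction f using MonoidAlgebra.induction_linear with
  | zero => simp
  | add f₁ f₂ h₁ h₂ =>
    rw [map_add, add_mul, MonoidAlgebra.coeff_add, Finsupp.add_apply, h₁, h₂,
      MonoidAlgebra.coeff_add, Finsupp.add_apply, add_mul]
  | single a r =>
    induction g using MonoidAlgebra.induction_linear with
    | zero => simp
    | add g₁ g₂ h₁ h₂ =>
      rw [map_add, mul_add, MonoidAlgebra.coeff_add, Finsupp.add_apply, h₁, h₂,
        MonoidAlgebra.coeff_add, Finsupp.add_apply, mul_add]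
    | single b s =>
      rw [inA_single, inB_single, MonoidAlgebra.single_mul_single, Prod.mk_mul_mk, mul_one, one_mul,
        MonoidAlgebra.coeff_single, MonoidAlgebra.coeff_single, MonoidAlgebra.coeff_single,
        Finsupp.single_apply, Finsupp.single_apply, Finsupp.single_apply]
      by_cases h1 : a = q <;> by_cases h2 : b = q' <;> simp [h1, h2]

private theorem inAB_comm (f : MonoidAlgebra ℤ Q) (g : MonoidAlgebra ℤ Q') :
    inA Q Q' f * inB Q Q' g = inB Q Q' g * inA Q Q' f := by
  induction f using MonoidAlgebra.induction_linear with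
  | zero => simp
  | add f₁ f₂ h₁ h₂ => rw [map_add, add_mul, mul_add, h₁, h₂]
  | single a r =>
    induction g using MonoidAlgebra.induction_linear with
    | zero => simp
    | add g₁ g₂ h₁ h₂ => rw [map_add, mul_add, add_mul, h₁, h₂]
    | single b s =>
      rw [inA_single, inB_single, MonoidAlgebra.single_mul_single, MonoidAlgebra.single_mul_single,
        Prod.mk_mul_mk, Prod.mk_mul_mk, mul_one, one_mul, mul_one, one_mul, mul_comm r s]

/-- tensor product of matrices -/
private noncomputable def tM {D D' : Type u} (m : Matrix D D (MonoidAlgebra ℤ Q))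
    (m' : Matrix D' D' (MonoidAlgebra ℤ Q')) :
    Matrix (D × D') (D × D') (MonoidAlgebra ℤ (Q × Q')) :=
  Matrix.of fun p p' => inA Q Q' (m p.1 p'.1) * inB Q Q' (m' p.2 p'.2)

private theorem tM_one {D D' : Type u} [DecidableEq D] [DecidableEq D'] :
    tM (1 : Matrix D D (MonoidAlgebra ℤ Q)) (1 : Matrix D' D' (MonoidAlgebra ℤ Q')) = 1 := by
  refine Matrix.ext fun p p' => ?_
  unfold tM
  rw [Matrix.of_apply, Matrix.one_apply, Matrix.one_apply, Matrix.one_apply]
  by_cases h1 : p.1 = p'.1 <;> by_cases h2 : p.2 = p'.2 <;>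
    simp [h1, h2, Prod.ext_iff]

private theorem tM_mul {D D' : Type u} [Fintype D] [Fintype D']
    (m n : Matrix D D (MonoidAlgebra ℤ Q)) (m' n' : Matrix D' D' (MonoidAlgebra ℤ Q')) :
    tM (m * n) (m' * n') = tM m m' * tM n n' := by
  refine Matrix.ext fun a b => ?_
  unfold tM
  rw [Matrix.of_apply, Matrix.mul_apply, Matrix.mul_apply, Matrix.mul_apply,
    map_sum, map_sum, Finset.sum_mul_sum, ← Finset.univ_product_univ, Finset.sum_product]
  refine Finset.sum_congr rfl fun i _ => Finset.sum_congr rfl fun j _ => ?_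
  rw [Matrix.of_apply, Matrix.of_apply, map_mul, map_mul]
  have := inAB_comm (n i b.1) (m' a.2 j)
  calc inA Q Q' (m a.1 i) * inA Q Q' (n i b.1) * (inB Q Q' (m' a.2 j) * inB Q Q' (n' j b.2))
      = inA Q Q' (m a.1 i) * (inA Q Q' (n i b.1) * inB Q Q' (m' a.2 j)) *
        inB Q Q' (n' j b.2) := by simp only [mul_assoc]
    _ = _ := by
      rw [this]
      simp only [mul_assoc]

/-- product of functionals -/
private noncomputable def cpr {D D' : Type u} (c : D × D × Q →₀ ℤ) (c' : D' × D' × Q' →₀ ℤ) :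
    (D × D') × (D × D') × (Q × Q') →₀ ℤ :=
  c.sum fun p r => c'.sum fun p' r' =>
    Finsupp.single ((p.1, p'.1), (p.2.1, p'.2.1), (p.2.2, p'.2.2)) (r * r')

private theorem cev_cpr {D D' : Type u} (m : Matrix D D (MonoidAlgebra ℤ Q))
    (m' : Matrix D' D' (MonoidAlgebra ℤ Q')) (c : D × D × Q →₀ ℤ) (c' : D' × D' × Q' →₀ ℤ) :
    cev (tM m m') (cpr c c') = cev m c * cev m' c' := by
  rw [cpr, map_finsuppSum, cev_apply m c, Finsupp.sum_mul]
  refine Finsupp.sum_congr fun p _ => ?_
  rw [map_finsuppSum, cev_apply m' c', Finsupp.mul_sum]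
  refine Finsupp.sum_congr fun p' _ => ?_
  rw [cev_single]
  unfold tM
  rw [Matrix.of_apply, inAB_coeff]
  ring

end

theorem Rep.prod {S S' : Type u} [Monoid S] [Monoid S'] (h : Rep S) (h' : Rep S') :
    Rep (S × S') := by
  classical
  obtain ⟨Q, _, hQ, D, _, _, a, ha⟩ := h
  obtain ⟨Q', _, hQ', D', _, _, a', ha'⟩ := h'
  refine ⟨Q × Q', inferInstance, TFSolv.prod hQ hQ', D × D', inferInstance, inferInstance,
    { toFun := fun s => tM (a s.1) (a' s.2)
      map_one' := ?_
      map_mul' := ?_ }, ?_⟩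
  · show tM (a 1) (a' 1) = 1
    rw [map_one, map_one, tM_one]
  · intro s t
    show tM (a (s.1 * t.1)) (a' (s.2 * t.2)) = _
    rw [map_mul, map_mul, tM_mul]
  · rintro F ⟨s, s'⟩ hs
    obtain ⟨c, h1, h2⟩ := ha ((F.image Prod.fst).erase s) s (Finset.notMem_erase _ _)
    obtain ⟨c', h1', h2'⟩ := ha' ((F.image Prod.snd).erase s') s' (Finset.notMem_erase _ _)
    refine ⟨cpr c c', ?_, ?_⟩
    · show cev (tM (a s) (a' s')) (cpr c c') = 1
      rw [cev_cpr, h1, h1', mul_one]
    · rintro ⟨t, t'⟩ ht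
      show cev (tM (a t) (a' t')) (cpr c c') = 0
      rw [cev_cpr]
      by_cases hts : t = s
      · have hts' : t' ≠ s' := by
          rintro rfl
          rw [hts] at ht
          exact hs ht
        rw [h2' t' (Finset.mem_erase.2 ⟨hts', Finset.mem_image.2 ⟨_, ht, rfl⟩⟩), mul_zero]
      · rw [h2 t (Finset.mem_erase.2 ⟨hts, Finset.mem_image.2 ⟨_, ht, rfl⟩⟩), zero_mul]

theorem Rep.of_equiv {S S' : Type u} [Monoid S] [Monoid S'] (e : S ≃* S') (h : Rep S') : Rep S :=
  Rep.of_injective e.toMonoidHom e.injective h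

theorem Rep.pi {V : Type u} [Finite V] (G : V → Type u) [∀ v, Monoid (G v)]
    (h : ∀ v, Rep (G v)) : Rep (∀ v, G v) := by
  refine Finite.induction_empty_option (P := fun V : Type u => ∀ (G : V → Type u)
    [∀ v, Monoid (G v)], (∀ v, Rep (G v)) → Rep (∀ v, G v)) ?_ ?_ ?_ V G h
  · intro α β e ih G _ h
    have h1 := ih (fun a => G (e a)) fun a => h _
    let f : (∀ b, G b) →* (∀ a, G (e a)) :=
      { toFun := fun x a => x (e a)
        map_one' := rfl
        map_mul' := fun _ _ => rfl }
    have hf : Function.Injective f := by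
      intro x y hxy
      funext b
      obtain ⟨a, rfl⟩ := e.surjective b
      exact congrFun hxy a
    exact Rep.of_injective f hf h1
  · intro G _ _
    have h1 : Rep (PUnit.{u + 1}) := Rep.of_solv (TFSolv.triv _ fun _ => rfl)
    exact Rep.of_injective (1 : (∀ v, G v) →* PUnit.{u + 1})
      (fun x y _ => funext fun v => v.elim) h1
  · intro α _ ih G _ h
    have h1 := Rep.prod (h none) (ih (fun a => G (some a)) fun a => h _)
    let e : (∀ o, G o) ≃* G none × ∀ a, G (some a) :=
      { Equiv.piOptionEquivProd with map_mul' := fun _ _ => rfl }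
    exact Rep.of_equiv e h1

theorem Rep.pow {S : Type u} [Monoid S] (h : Rep S) (k : ℕ) : Rep (Fin k → S) :=
  Rep.of_equiv (MulEquiv.arrowCongr Equiv.ulift (MulEquiv.refl S)).symm
    (Rep.pi (fun _ : ULift.{u} (Fin k) => S) fun _ => h)

end Pool.Agent.H66.GX4
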