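import Pool.Agent.H66.GX4.Free

/-!
# Monoids with an integral generic representation over a solvable group
-/

set_option autoImplicit false

namespace Pool.Agent.H66.GX4

open Pool.Agent.H36.OX Pool.Agent.H36.GX

universe u

/-- an integer combination of the coefficients of a matrix -/
noncomputable def cev {D Q : Type u} (m : Matrix D D (MonoidAlgebra ℤ Q)) :
    (D × D × Q →₀ ℤ) →+ ℤ :=
  Finsupp.liftAddHom fun p => (AddMonoidHom.mulRight ((m p.1 p.2.1).coeff p.2.2))

theorem cev_single {D Q : Type u} (m : Matrix D D (MonoidAlgebra ℤ Q)) (p : D × D × Q) (r : ℤ) :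
    cev m (Finsupp.single p r) = r * (m p.1 p.2.1).coeff p.2.2 := by
  rw [cev, Finsupp.liftAddHom_apply_single]
  rfl

theorem cev_apply {D Q : Type u} (m : Matrix D D (MonoidAlgebra ℤ Q)) (c : D × D × Q →₀ ℤ) :
    cev m c = c.sum fun p r => r * (m p.1 p.2.1).coeff p.2.2 := by
  rw [cev, Finsupp.liftAddHom_apply]
  rfl

/-- every element is separated from every finite set of other elements by an integer combination of
coefficients -/
def Dual {S D Q : Type u} (a : S → Matrix D D (MonoidAlgebra ℤ Q)) : Prop :=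
  ∀ (F : Finset S) (s : S), s ∉ F → ∃ c : D × D × Q →₀ ℤ, cev (a s) c = 1 ∧
    ∀ t ∈ F, cev (a t) c = 0

/-- `S` has a generic representation over the group ring of a group in `TFSolv` -/
def Rep (S : Type u) [Monoid S] : Prop :=
  ∃ (Q : Type u) (_ : Group Q) (_ : TFSolv Q) (D : Type u) (_ : Fintype D) (_ : DecidableEq D)
    (a : S →* Matrix D D (MonoidAlgebra ℤ Q)), Dual a

/-- unitriangular families of coefficients give dual functionals -/
theorem Dual.of_tri {S D Q : Type u} (a : S → Matrix D D (MonoidAlgebra ℤ Q)) (ℓ : S → ℕ)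
    (L : S → D × D × Q)
    (h1 : ∀ g, (a g (L g).1 (L g).2.1).coeff (L g).2.2 = 1 ∨
      (a g (L g).1 (L g).2.1).coeff (L g).2.2 = -1)
    (h2 : ∀ g h, h ≠ g → ℓ h ≤ ℓ g → (a h (L g).1 (L g).2.1).coeff (L g).2.2 = 0) : Dual a := by
  classical
  -- all elements of `F` of length at least `m` can be separated in `F`
  have key : ∀ (F : Finset S) (k : ℕ), ∀ s ∈ F, F.sup ℓ ≤ ℓ s + k →
      ∃ c : D × D × Q →₀ ℤ, ∀ t ∈ F, cev (a t) c = if t = s then 1 else 0 := by
    intro F k
    induction k using Nat.strong_induction_on with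
    | _ k ih =>
      intro s hs hk
      -- the elements of larger length
      have hc : ∀ t : {t // t ∈ F ∧ ℓ s < ℓ t}, ∃ c : D × D × Q →₀ ℤ, ∀ t' ∈ F,
          cev (a t') c = if t' = t.1 then 1 else 0 := by
        rintro ⟨t, ht, hst⟩
        have h3 : ℓ t ≤ F.sup ℓ := Finset.le_sup ht
        exact ih (F.sup ℓ - ℓ t) (by omega) t ht (by omega)
      choose c hc using hc
      have hs1 : ∃ e : ℤ, e * (a s (L s).1 (L s).2.1).coeff (L s).2.2 = 1 := by
        rcases h1 s with h | h
        · exact ⟨1, by rw [h]; norm_num⟩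
        · exact ⟨-1, by rw [h]; norm_num⟩
      obtain ⟨e, he⟩ := hs1
      let G : Finset {t // t ∈ F ∧ ℓ s < ℓ t} :=
        (F.filter fun t => ℓ s < ℓ t).attach.image fun t =>
          ⟨t.1, Finset.mem_filter.1 t.2⟩
      have hG : ∀ t (ht : t ∈ F ∧ ℓ s < ℓ t), (⟨t, ht⟩ : {t // t ∈ F ∧ ℓ s < ℓ t}) ∈ G := by
        intro t ht
        exact Finset.mem_image.2 ⟨⟨t, Finset.mem_filter.2 ht⟩, Finset.mem_attach _ _, rfl⟩
      refine ⟨Finsupp.single (L s) e - ∑ t ∈ G,
        (e * (a t.1 (L s).1 (L s).2.1).coeff (L s).2.2) • c t, ?_⟩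
      intro t ht
      rw [map_sub, cev_single, map_sum]
      have h4 : ∀ t' ∈ G, cev (a t) ((e * (a t'.1 (L s).1 (L s).2.1).coeff (L s).2.2) • c t') =
          if t = t'.1 then e * (a t (L s).1 (L s).2.1).coeff (L s).2.2 else 0 := by
        intro t' _
        rw [map_zsmul, hc t' t ht, smul_eq_mul]
        by_cases h : t = t'.1
        · rw [if_pos h, if_pos h, mul_one, ← h]
        · rw [if_neg h, if_neg h, mul_zero]
      rw [Finset.sum_congr rfl h4]
      by_cases hlt : ℓ s < ℓ t
      · rw [Finset.sum_eq_single (⟨t, ht, hlt⟩ : {t // t ∈ F ∧ ℓ s < ℓ t}), if_pos rfl, sub_self,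
          if_neg]
        · intro h
          rw [h] at hlt
          exact lt_irrefl _ hlt
        · intro t' _ hne
          rw [if_neg]
          intro h
          exact hne (Subtype.ext h.symm)
        · intro h
          exact absurd (hG t ⟨ht, hlt⟩) h
      · rw [Finset.sum_eq_zero, sub_zero]
        · by_cases h : t = s
          · rw [if_pos h, h, he]
          · rw [if_neg h, h2 s t h (not_lt.1 hlt), mul_zero]
        · intro t' _
          rw [if_neg]
          intro h
          rw [h] at hlt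
          exact hlt t'.2.2
  intro F s hs
  obtain ⟨c, hc⟩ := key (insert s F) ((insert s F).sup ℓ) s (Finset.mem_insert_self _ _)
    (Nat.le_add_left _ _)
  refine ⟨c, ?_, fun t ht => ?_⟩
  · rw [hc s (Finset.mem_insert_self _ _), if_pos rfl]
  · rw [hc t (Finset.mem_insert_of_mem ht), if_neg]
    rintro rfl
    exact hs ht

theorem Rep.of_injective {S S' : Type u} [Monoid S] [Monoid S'] (f : S →* S')
    (hf : Function.Injective f) (h : Rep S') : Rep S := by
  classical
  obtain ⟨Q, _, hQ, D, _, _, a, ha⟩ := h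
  refine ⟨Q, inferInstance, hQ, D, inferInstance, inferInstance, a.comp f, fun F s hs => ?_⟩
  obtain ⟨c, h1, h2⟩ := ha (F.image f) (f s) fun h => by
    obtain ⟨t, ht, hts⟩ := Finset.mem_image.1 h
    exact hs (hf hts ▸ ht)
  exact ⟨c, h1, fun t ht => h2 (f t) (Finset.mem_image_of_mem _ ht)⟩

/-- groups in `TFSolv` -/
theorem Rep.of_solv {N : Type u} [Group N] (h : TFSolv N) : Rep N := by
  classical
  refine ⟨N, inferInstance, h, PUnit, inferInstance, inferInstance,
    (Matrix.scalar PUnit).toMonoidHom.comp (MonoidAlgebra.of ℤ N), fun F s hs => ?_⟩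
  have h1 : ∀ t : N, ((Matrix.scalar PUnit).toMonoidHom.comp (MonoidAlgebra.of ℤ N)) t
      PUnit.unit PUnit.unit = MonoidAlgebra.single t 1 := by
    intro t
    show Matrix.scalar PUnit (MonoidAlgebra.of ℤ N t) PUnit.unit PUnit.unit = _
    rw [Matrix.scalar_apply, Matrix.diagonal_apply_eq]
    rfl
  refine ⟨Finsupp.single (PUnit.unit, PUnit.unit, s) 1, ?_, fun t ht => ?_⟩
  · rw [cev_single, h1, MonoidAlgebra.coeff_single, Finsupp.single_eq_same, one_mul]
  · rw [cev_single, h1, MonoidAlgebra.coeff_single, Finsupp.single_eq_of_ne, mul_zero]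
    rintro rfl
    exact hs ht

/-- `F(Y) ⋊ N` -/
theorem Rep.free {N Y : Type u} [Group N] (hN : SolvTF N) (φ : N →* MulAut (FreeGroup Y))
    (hφ : ∀ n y, ∃ y', φ n (FreeGroup.of y) = FreeGroup.of y') : Rep (FreeGroup Y ⋊[φ] N) := by
  classical
  obtain ⟨Q, _, hQ, a, ℓ, L, h1, h2⟩ := exists_repFree hN φ hφ
  let e : Fin 2 ≃ ULift.{u} (Fin 2) := Equiv.ulift.symm
  refine ⟨Q, inferInstance, hQ, ULift (Fin 2), inferInstance, inferInstance,
    ((Matrix.reindexRingEquiv (MonoidAlgebra ℤ Q) e).toMonoidHom).comp a,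
    Dual.of_tri _ ℓ (fun g => (e (L g).1, e (L g).2.1, (L g).2.2)) ?_ ?_⟩
  · exact h1
  · exact h2

end Pool.Agent.H66.GX4
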