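import Pool.Agent.H66.GX4.Prd
import Pool.Agent.H36.GX.Wre
import Pool.Agent.H36.GX.Pos

/-!
# The free product of a group and a free monoid
-/

set_option autoImplicit false

namespace Pool.Agent.H66.GX4

open Pool.Agent.H36.OX Pool.Agent.H36.GX

universe u

/-- `i n * x t * q` determines `n`, `t`, `q`, and is not in the image of `i` -/
structure IsPos2 {N T Q : Type u} [Group N] [Group Q] (i : N →* Q) (x : T → Q) (Pos : Q → Prop) :
    Prop where
  base : ∀ n, Pos (i n)
  mul : ∀ n t q, Pos q → Pos (i n * x t * q)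
  inj : ∀ n t q n' t' q', Pos q → Pos q' → i n * x t * q = i n' * x t' * q' →
    n = n' ∧ t = t' ∧ q = q'
  sep : ∀ n t q n', Pos q → i n * x t * q ≠ i n'
  injN : Function.Injective i

theorem IsPos2.of {N T Q : Type u} [Group N] [Group Q] {i : N →* Q} {x : Option T → Q}
    {Pos : Q → Prop} (h : IsPos i x Pos) :
    IsPos2 i (fun t => x (some t)) (fun q => Pos (q * x none)) := by
  refine ⟨?_, ?_, ?_, ?_, ?_⟩
  · intro n
    have h1 := h.mul n none 1 h.one
    rwa [mul_one] at h1
  · intro n t q hq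
    have h1 := h.mul n (some t) _ hq
    rwa [← mul_assoc] at h1
  · intro n t q n' t' q' hq hq' he
    have h1 : i n * x (some t) * (q * x none) = i n' * x (some t') * (q' * x none) := by
      rw [← mul_assoc, he, mul_assoc]
    obtain ⟨h2, h3, h4⟩ := h.inj _ _ _ _ _ _ hq hq' h1
    exact ⟨h2, Option.some.inj h3, mul_right_cancel h4⟩
  · intro n t q n' hq he
    have h1 : i n * x (some t) * (q * x none) = i n' * x none * 1 := by
      rw [← mul_assoc, he, mul_one]
    obtain ⟨-, h3, -⟩ := h.inj _ _ _ _ _ _ hq h.one h1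
    exact Option.some_ne_none _ h3
  · intro n n' he
    have h1 : i n * x none * 1 = i n' * x none * 1 := by rw [he]
    exact (h.inj _ _ _ _ _ _ h.one h.one h1).1

/-- the free product of a group and a free monoid -/
abbrev Pm (X T : Type u) [Group X] : Type u := Monoid.Coprod X (FreeMonoid T)

/-- the value of a word -/
def wv {X T : Type u} [Group X] : List (X × T) → X → Pm X T
  | [], y => Monoid.Coprod.inl y
  | p :: L, y => Monoid.Coprod.inl p.1 * (Monoid.Coprod.inr (FreeMonoid.of p.2) * wv L y)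

theorem exists_wv {X T : Type u} [Group X] (p : Pm X T) : ∃ L y, wv L y = p := by
  have h1 : ∀ (x : X) (L : List (X × T)) (y : X), ∃ L' y',
      (Monoid.Coprod.inl x : Pm X T) * wv L y = wv L' y' := by
    intro x L y
    cases L with
    | nil => exact ⟨[], x * y, by rw [wv, wv, map_mul]⟩
    | cons p L => exact ⟨(x * p.1, p.2) :: L, y, by rw [wv, wv, map_mul, mul_assoc]⟩
  have h2 : ∀ (w : FreeMonoid T) (L : List (X × T)) (y : X), ∃ L' y',
      (Monoid.Coprod.inr w : Pm X T) * wv L y = wv L' y' := by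
    intro w
    induction w using FreeMonoid.recOn with
    | one => exact fun L y => ⟨L, y, by rw [map_one, one_mul]⟩
    | of_mul t w ih =>
      intro L y
      obtain ⟨L', y', h⟩ := ih L y
      exact ⟨(1, t) :: L', y', by rw [map_mul, mul_assoc, h, wv, map_one, one_mul]⟩
  have h3 : ∀ (p : Pm X T) (L : List (X × T)) (y : X), ∃ L' y', p * wv L y = wv L' y' := by
    intro p
    induction p using Monoid.Coprod.induction_on with
    | inl x => exact h1 x
    | inr w => exact h2 w
    | mul a b ha hb =>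
      intro L y
      obtain ⟨L', y', h⟩ := hb L y
      obtain ⟨L'', y'', h'⟩ := ha L' y'
      exact ⟨L'', y'', by rw [mul_assoc, h, h']⟩
  obtain ⟨L', y', h⟩ := h3 p [] 1
  refine ⟨L', y', ?_⟩
  rw [← h, wv, map_one, mul_one]

section

variable {N D Q T : Type u} [Group N] [Group Q] [Fintype D] [DecidableEq D]
  (i : N →* Q) (x : T × D × D → Q)

private noncomputable def io (i : N →* Q) : MonoidAlgebra ℤ N →+* MonoidAlgebra ℤ Q :=
  MonoidAlgebra.mapDomainRingHom ℤ i

private theorem io_single (n : N) (r : ℤ) :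
    io i (MonoidAlgebra.single n r) = MonoidAlgebra.single (i n) r := by
  simp [io]

private theorem io_coeff (hi : Function.Injective i) (f : MonoidAlgebra ℤ N) (n : N) :
    (io i f).coeff (i n) = f.coeff n := by
  classical
  induction f using MonoidAlgebra.induction_linear with
  | zero => simp
  | add f g hf hg =>
    rw [map_add, MonoidAlgebra.coeff_add, Finsupp.add_apply, hf, hg, MonoidAlgebra.coeff_add,
      Finsupp.add_apply]
  | single m r =>
    rw [io_single, MonoidAlgebra.coeff_single, MonoidAlgebra.coeff_single, Finsupp.single_apply,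
      Finsupp.single_apply]
    by_cases h : m = n
    · rw [if_pos h, if_pos (by rw [h])]
    · rw [if_neg h, if_neg (fun h' => h (hi h'))]

private theorem io_supp (f : MonoidAlgebra ℤ N) (u : Q) (h : (io i f).coeff u ≠ 0) :
    ∃ n, u = i n := by
  classical
  induction f using MonoidAlgebra.induction_linear with
  | zero =>
    rw [map_zero, MonoidAlgebra.coeff_zero] at h
    exact absurd rfl h
  | add f g hf hg =>
    rw [map_add, MonoidAlgebra.coeff_add, Finsupp.add_apply] at h
    by_cases h1 : (io i f).coeff u = 0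
    · rw [h1, zero_add] at h
      exact hg h
    · exact hf h1
  | single m r =>
    rw [io_single, MonoidAlgebra.coeff_single, Finsupp.single_apply] at h
    by_cases h1 : i m = u
    · exact ⟨m, h1.symm⟩
    · rw [if_neg h1] at h
      exact absurd rfl h

private noncomputable def Xi (t : T) : Matrix D D (MonoidAlgebra ℤ Q) :=
  Matrix.of fun k l => MonoidAlgebra.single (x (t, k, l)) 1

private theorem term_coeff {Pos : Q → Prop} (hpos : IsPos2 i x Pos) (f : MonoidAlgebra ℤ N)
    (g : MonoidAlgebra ℤ Q) (hg : ∀ u, g.coeff u ≠ 0 → Pos u) (τ τ' : T × D × D) (n : N) (u : Q)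
    (hu : Pos u) :
    (τ = τ' → (io i f * (MonoidAlgebra.single (x τ') 1 * g)).coeff (i n * x τ * u) =
      f.coeff n * g.coeff u) ∧
    (τ ≠ τ' → (io i f * (MonoidAlgebra.single (x τ') 1 * g)).coeff (i n * x τ * u) = 0) := by
  classical
  induction f using MonoidAlgebra.induction_linear with
  | zero => simp
  | add f f' hf hf' =>
    constructor
    · intro h
      rw [map_add, add_mul, MonoidAlgebra.coeff_add, Finsupp.add_apply, hf.1 h, hf'.1 h,
        MonoidAlgebra.coeff_add, Finsupp.add_apply, add_mul]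
    · intro h
      rw [map_add, add_mul, MonoidAlgebra.coeff_add, Finsupp.add_apply, hf.2 h, hf'.2 h, add_zero]
  | single m r =>
    rw [io_single, ← mul_assoc, MonoidAlgebra.single_mul_single, mul_one,
      MonoidAlgebra.coeff_single_mul_apply, MonoidAlgebra.coeff_single]
    have key : g.coeff ((i m * x τ')⁻¹ * (i n * x τ * u)) ≠ 0 →
        m = n ∧ τ' = τ := by
      intro h
      have h1 := hg _ h
      have h2 : i m * x τ' * ((i m * x τ')⁻¹ * (i n * x τ * u)) = i n * x τ * u := by
        rw [mul_inv_cancel_left]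
      obtain ⟨h3, h4, -⟩ := hpos.inj _ _ _ _ _ _ h1 hu h2
      exact ⟨h3, h4⟩
    constructor
    · intro h
      rw [Finsupp.single_apply]
      by_cases hm : m = n
      · rw [if_pos hm, hm, h, inv_mul_cancel_left]
      · rw [if_neg hm, zero_mul]
        by_contra hne
        apply hm
        exact (key fun h' => hne (by rw [h', mul_zero])).1
    · intro h
      by_contra hne
      exact h (key fun h' => hne (by rw [h', mul_zero])).2.symm

private theorem term_supp {Pos : Q → Prop} (f : MonoidAlgebra ℤ N)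
    (g : MonoidAlgebra ℤ Q) (hg : ∀ u, g.coeff u ≠ 0 → Pos u) (τ : T × D × D) (u : Q)
    (h : (io i f * (MonoidAlgebra.single (x τ) 1 * g)).coeff u ≠ 0) :
    ∃ n q, Pos q ∧ u = i n * x τ * q := by
  classical
  induction f using MonoidAlgebra.induction_linear with
  | zero =>
    rw [map_zero, zero_mul, MonoidAlgebra.coeff_zero] at h
    exact absurd rfl h
  | add f f' hf hf' =>
    rw [map_add, add_mul, MonoidAlgebra.coeff_add, Finsupp.add_apply] at h
    by_cases h1 : (io i f * (MonoidAlgebra.single (x τ) 1 * g)).coeff u = 0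
    · rw [h1, zero_add] at h
      exact hf' h
    · exact hf h1
  | single m r =>
    rw [io_single, ← mul_assoc, MonoidAlgebra.single_mul_single, mul_one,
      MonoidAlgebra.coeff_single_mul_apply] at h
    refine ⟨m, _, hg _ (fun h' => h (by rw [h', mul_zero])), ?_⟩
    rw [mul_inv_cancel_left]

variable {X : Type u} [Group X] (a : X →* Matrix D D (MonoidAlgebra ℤ N))

/-- the representation -/
private noncomputable def aP : Pm X T →* Matrix D D (MonoidAlgebra ℤ Q) :=
  Monoid.Coprod.lift (((io i).mapMatrix (m := D)).toMonoidHom.comp a) (FreeMonoid.lift (Xi x))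

private theorem aP_nil (y : X) (b c : D) :
    aP i x a (wv ([] : List (X × T)) y) b c = io i (a y b c) := by
  rw [aP, wv, Monoid.Coprod.lift_apply_inl]
  rfl

private theorem aP_cons (p : X × T) (L : List (X × T)) (y : X) (b c : D) :
    aP i x a (wv (p :: L) y) b c = ∑ k, ∑ l, io i (a p.1 b k) *
      (MonoidAlgebra.single (x (p.2, k, l)) 1 * aP i x a (wv L y) l c) := by
  rw [wv, map_mul, map_mul, Matrix.mul_apply]
  refine Finset.sum_congr rfl fun k _ => ?_
  rw [Matrix.mul_apply, Finset.mul_sum]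
  refine Finset.sum_congr rfl fun l _ => ?_
  have h1 : aP i x a (Monoid.Coprod.inl p.1) b k = io i (a p.1 b k) := by
    rw [aP, Monoid.Coprod.lift_apply_inl]
    rfl
  have h2 : aP i x a (Monoid.Coprod.inr (FreeMonoid.of p.2)) k l =
      MonoidAlgebra.single (x (p.2, k, l)) 1 := by
    rw [aP, Monoid.Coprod.lift_apply_inr, FreeMonoid.lift_eval_of]
    rfl
  rw [h1, h2]

private theorem aP_supp {Pos : Q → Prop} (hpos : IsPos2 i x Pos) (L : List (X × T)) (y : X) :
    ∀ (b c : D) (u : Q), (aP i x a (wv L y) b c).coeff u ≠ 0 →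
      Pos u ∧ (L ≠ [] → ∃ n τ q, Pos q ∧ u = i n * x τ * q) := by
  induction L with
  | nil =>
    intro b c u h
    rw [aP_nil] at h
    obtain ⟨n, rfl⟩ := io_supp i _ _ h
    exact ⟨hpos.base n, fun h' => absurd rfl h'⟩
  | cons p L ih =>
    intro b c u h
    rw [aP_cons, MonoidAlgebra.coeff_sum, Finsupp.finsetSum_apply] at h
    obtain ⟨k, -, hk⟩ := Finset.exists_ne_zero_of_sum_ne_zero h
    rw [MonoidAlgebra.coeff_sum, Finsupp.finsetSum_apply] at hk
    obtain ⟨l, -, hl⟩ := Finset.exists_ne_zero_of_sum_ne_zero hk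
    obtain ⟨n, q, hq, rfl⟩ := term_supp i x _ _ (fun u hu => (ih l c u hu).1) _ _ hl
    exact ⟨hpos.mul _ _ _ hq, fun _ => ⟨n, _, q, hq, rfl⟩⟩

private theorem aP_coeff {Pos : Q → Prop} (hpos : IsPos2 i x Pos) (p : X × T) (L : List (X × T))
    (y : X) (b c k l : D) (t : T) (n : N) (u : Q) (hu : Pos u) :
    (t = p.2 → (aP i x a (wv (p :: L) y) b c).coeff (i n * x (t, k, l) * u) =
      (a p.1 b k).coeff n * (aP i x a (wv L y) l c).coeff u) ∧
    (t ≠ p.2 → (aP i x a (wv (p :: L) y) b c).coeff (i n * x (t, k, l) * u) = 0) := by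
  have hg : ∀ l' u, (aP i x a (wv L y) l' c).coeff u ≠ 0 → Pos u :=
    fun l' u h => (aP_supp i x a hpos L y l' c u h).1
  have key := fun k' l' => term_coeff i x hpos (a p.1 b k') (aP i x a (wv L y) l' c) (hg l')
    (t, k, l) (p.2, k', l') n u hu
  constructor
  · intro ht
    rw [aP_cons, MonoidAlgebra.coeff_sum, Finsupp.finsetSum_apply, Finset.sum_eq_single k]
    · rw [MonoidAlgebra.coeff_sum, Finsupp.finsetSum_apply, Finset.sum_eq_single l]
      · exact (key k l).1 (by rw [ht])
      · intro l' _ hne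
        refine (key k l').2 fun h => hne ?_
        exact (Prod.mk.inj (Prod.mk.inj h).2).2.symm
      · intro h
        exact absurd (Finset.mem_univ _) h
    · intro k' _ hne
      rw [MonoidAlgebra.coeff_sum, Finsupp.finsetSum_apply]
      refine Finset.sum_eq_zero fun l' _ => (key k' l').2 fun h => hne ?_
      exact (Prod.mk.inj (Prod.mk.inj h).2).1.symm
    · intro h
      exact absurd (Finset.mem_univ _) h
  · intro ht
    rw [aP_cons, MonoidAlgebra.coeff_sum, Finsupp.finsetSum_apply]
    refine Finset.sum_eq_zero fun k' _ => ?_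
    rw [MonoidAlgebra.coeff_sum, Finsupp.finsetSum_apply]
    exact Finset.sum_eq_zero fun l' _ => (key k' l').2 fun h => ht (Prod.mk.inj h).1

/-- functional of a word -/
private noncomputable def cst (t : T) (c : D × D × N →₀ ℤ) (c' : D × D × Q →₀ ℤ) :
    D × D × Q →₀ ℤ :=
  c.sum fun p r => c'.sum fun p' r' =>
    Finsupp.single (p.1, p'.2.1, i p.2.2 * x (t, p.2.1, p'.1) * p'.2.2) (r * r')

private theorem cst_pos {Pos : Q → Prop} (hpos : IsPos2 i x Pos) (t : T) (c : D × D × N →₀ ℤ)
    (c' : D × D × Q →₀ ℤ) (hc' : ∀ p, c' p ≠ 0 → Pos p.2.2) (p : D × D × Q)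
    (hp : cst i x t c c' p ≠ 0) : Pos p.2.2 := by
  classical
  rw [cst, Finsupp.sum_apply, Finsupp.sum] at hp
  obtain ⟨p₀, -, h0⟩ := Finset.exists_ne_zero_of_sum_ne_zero hp
  rw [Finsupp.sum_apply, Finsupp.sum] at h0
  obtain ⟨p', h1, h2⟩ := Finset.exists_ne_zero_of_sum_ne_zero h0
  rw [Finsupp.single_apply] at h2
  by_cases h3 : (p₀.1, p'.2.1, i p₀.2.2 * x (t, p₀.2.1, p'.1) * p'.2.2) = p
  · rw [← h3]
    exact hpos.mul _ _ _ (hc' p' (Finsupp.mem_support_iff.1 h1))
  · rw [if_neg h3] at h2
    exact absurd rfl h2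

private theorem cev_cst {Pos : Q → Prop} (hpos : IsPos2 i x Pos) (t : T) (c : D × D × N →₀ ℤ)
    (c' : D × D × Q →₀ ℤ) (hc' : ∀ p, c' p ≠ 0 → Pos p.2.2) (p : X × T) (L : List (X × T))
    (y : X) :
    (t = p.2 → cev (aP i x a (wv (p :: L) y)) (cst i x t c c') =
      cev (a p.1) c * cev (aP i x a (wv L y)) c') ∧
    (t ≠ p.2 → cev (aP i x a (wv (p :: L) y)) (cst i x t c c') = 0) := by
  constructor
  · intro ht
    rw [cst, map_finsuppSum, cev_apply _ c, Finsupp.sum_mul]
    refine Finsupp.sum_congr fun p₀ _ => ?_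
    rw [map_finsuppSum, cev_apply _ c', Finsupp.mul_sum]
    refine Finsupp.sum_congr fun p' hp' => ?_
    rw [cev_single, (aP_coeff i x a hpos p L y p₀.1 p'.2.1 p₀.2.1 p'.1 t p₀.2.2 p'.2.2
      (hc' p' (Finsupp.mem_support_iff.1 hp'))).1 ht]
    ring
  · intro ht
    rw [cst, map_finsuppSum, Finsupp.sum]
    refine Finset.sum_eq_zero fun p₀ _ => ?_
    rw [map_finsuppSum, Finsupp.sum]
    refine Finset.sum_eq_zero fun p' hp' => ?_
    rw [cev_single, (aP_coeff i x a hpos p L y p₀.1 p'.2.1 p₀.2.1 p'.1 t p₀.2.2 p'.2.2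
      (hc' p' (Finsupp.mem_support_iff.1 hp'))).2 ht, mul_zero]

private theorem cst_nil {Pos : Q → Prop} (hpos : IsPos2 i x Pos) (t : T) (c : D × D × N →₀ ℤ)
    (c' : D × D × Q →₀ ℤ) (hc' : ∀ p, c' p ≠ 0 → Pos p.2.2) (y : X) :
    cev (aP i x a (wv ([] : List (X × T)) y)) (cst i x t c c') = 0 := by
  rw [cst, map_finsuppSum, Finsupp.sum]
  refine Finset.sum_eq_zero fun p₀ _ => ?_
  rw [map_finsuppSum, Finsupp.sum]
  refine Finset.sum_eq_zero fun p' hp' => ?_
  rw [cev_single]
  by_contra hne
  have h1 : (aP i x a (wv ([] : List (X × T)) y) p₀.1 p'.2.1).coeff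
      (i p₀.2.2 * x (t, p₀.2.1, p'.1) * p'.2.2) ≠ 0 := fun h => hne (by
    show _ * (aP i x a (wv ([] : List (X × T)) y) p₀.1 p'.2.1).coeff
      (i p₀.2.2 * x (t, p₀.2.1, p'.1) * p'.2.2) = 0
    rw [h, mul_zero])
  rw [aP_nil] at h1
  obtain ⟨n, hn⟩ := io_supp i _ _ h1
  exact hpos.sep _ _ _ _ (hc' p' (Finsupp.mem_support_iff.1 hp')) hn

private theorem aP_dual {Pos : Q → Prop} (hpos : IsPos2 i x Pos) (ha : Dual a)
    (L : List (X × T)) (y : X) : ∀ F : Finset (List (X × T) × X), (L, y) ∉ F →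
      ∃ c : D × D × Q →₀ ℤ, (∀ p, c p ≠ 0 → Pos p.2.2) ∧ cev (aP i x a (wv L y)) c = 1 ∧
        ∀ q ∈ F, cev (aP i x a (wv q.1 q.2)) c = 0 := by
  classical
  induction L with
  | nil =>
    intro F hF
    obtain ⟨c, h1, h2⟩ := ha ((F.image Prod.snd).erase y) y (Finset.notMem_erase _ _)
    have hc : ∀ (p : D × D × Q), (c.sum fun p r => (Finsupp.single (p.1, p.2.1, i p.2.2) r :
        D × D × Q →₀ ℤ)) p ≠ 0 → ∃ n, p.2.2 = i n := by
      intro p hp
      rw [Finsupp.sum_apply, Finsupp.sum] at hp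
      obtain ⟨p₀, -, h0⟩ := Finset.exists_ne_zero_of_sum_ne_zero hp
      rw [Finsupp.single_apply] at h0
      by_cases h3 : (p₀.1, p₀.2.1, i p₀.2.2) = p
      · rw [← h3]
        exact ⟨_, rfl⟩
      · rw [if_neg h3] at h0
        exact absurd rfl h0
    have hcev : ∀ y' : X, cev (aP i x a (wv ([] : List (X × T)) y')) (c.sum fun p r =>
        Finsupp.single (p.1, p.2.1, i p.2.2) r) = cev (a y') c := by
      intro y'
      rw [map_finsuppSum, cev_apply (a y')]
      refine Finsupp.sum_congr fun p₀ _ => ?_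
      rw [cev_single, aP_nil, io_coeff i hpos.injN]
    refine ⟨c.sum fun p r => Finsupp.single (p.1, p.2.1, i p.2.2) r, ?_, ?_, ?_⟩
    · intro p hp
      obtain ⟨n, hn⟩ := hc p hp
      rw [hn]
      exact hpos.base n
    · rw [hcev, h1]
    · rintro ⟨L', y'⟩ hq
      cases L' with
      | nil =>
        rw [hcev]
        refine h2 y' (Finset.mem_erase.2 ⟨?_, Finset.mem_image.2 ⟨_, hq, rfl⟩⟩)
        rintro rfl
        exact hF hq
      | cons p L' =>
        rw [map_finsuppSum, Finsupp.sum]
        refine Finset.sum_eq_zero fun p₀ _ => ?_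
        rw [cev_single]
        by_contra hne
        have h3 : (aP i x a (wv (p :: L') y') p₀.1 p₀.2.1).coeff (i p₀.2.2) ≠ 0 :=
          fun h => hne (by
            show _ * (aP i x a (wv (p :: L') y') p₀.1 p₀.2.1).coeff (i p₀.2.2) = 0
            rw [h, mul_zero])
        obtain ⟨n, τ, q, hq', hn⟩ := (aP_supp i x a hpos _ _ _ _ _ h3).2 (List.cons_ne_nil _ _)
        exact hpos.sep _ _ _ _ hq' hn.symm
  | cons p L ih =>
    intro F hF
    obtain ⟨c', h0', h1', h2'⟩ := ih
      ((F.image fun q => (q.1.tail, q.2)).erase (L, y)) (Finset.notMem_erase _ _)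
    obtain ⟨c, h1, h2⟩ := ha ((F.image fun q => (q.1.map Prod.fst).headD 1).erase p.1) p.1
      (Finset.notMem_erase _ _)
    refine ⟨cst i x p.2 c c', cst_pos i x hpos _ _ _ h0', ?_, ?_⟩
    · rw [(cev_cst i x a hpos p.2 c c' h0' p L y).1 rfl, h1, h1', mul_one]
    · rintro ⟨L', y'⟩ hq
      cases L' with
      | nil => exact cst_nil i x a hpos _ _ _ h0' _
      | cons p' L' =>
        by_cases ht : p.2 = p'.2
        · rw [(cev_cst i x a hpos p.2 c c' h0' p' L' y').1 ht]
          by_cases hx : p'.1 = p.1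
          · rw [h2' (L', y'), mul_zero]
            refine Finset.mem_erase.2 ⟨?_, Finset.mem_image.2 ⟨_, hq, rfl⟩⟩
            intro h3
            apply hF
            have h4 : p = p' := Prod.ext hx.symm ht
            rw [h4, ← (Prod.mk.inj h3).1, ← (Prod.mk.inj h3).2]
            exact hq
          · rw [h2 p'.1, zero_mul]
            exact Finset.mem_erase.2 ⟨hx, Finset.mem_image.2 ⟨_, hq, rfl⟩⟩
        · exact (cev_cst i x a hpos p.2 c c' h0' p' L' y').2 ht

end

/-- **Words in a group with a generic representation and letters.** -/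
theorem Rep.pm {X : Type u} [Group X] (h : Rep X) (T : Type u) : Rep (Pm X T) := by
  classical
  obtain ⟨N, _, hN, D, _, _, a, ha⟩ := h
  obtain ⟨Q, _, hQ, i, x, Pos, hpos⟩ := exists_wre hN (Option (T × D × D))
  have hpos2 := IsPos2.of hpos
  refine ⟨Q, inferInstance, hQ, D, inferInstance, inferInstance, aP i (fun t => x (some t)) a, ?_⟩
  intro F s hs
  choose wl wy hw using exists_wv (X := X) (T := T)
  obtain ⟨c, -, h1, h2⟩ := aP_dual i (fun t => x (some t)) a hpos2 ha (wl s) (wy s)
    (F.image fun t => (wl t, wy t)) (fun h => by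
      obtain ⟨t, ht, hts⟩ := Finset.mem_image.1 h
      apply hs
      have h3 : t = s := by
        rw [← hw t, ← hw s, (Prod.mk.inj hts).1, (Prod.mk.inj hts).2]
      rw [← h3]
      exact ht)
  refine ⟨c, ?_, fun t ht => ?_⟩
  · rw [hw] at h1
    exact h1
  · have h3 := h2 _ (Finset.mem_image_of_mem _ ht)
    simp only [hw] at h3
    exact h3

end Pool.Agent.H66.GX4
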